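import Pool.Agent.N309.LO.Core

set_option autoImplicit false
set_option linter.unusedSectionVars false

open scoped InnerProductSpace InnerProduct ENNReal

/-! The lowest part inequality for elements of the complex group algebra. -/

namespace Pool.Agent.N309.LO

open Pool.Agent.W649.ZL

universe u

section
variable {G : Type u} [Group G]

theorem cop_dl (α : G →₀ ℂ) (g : G) : cop α (dl ((1 : G), ())) (g, ()) = α g := by
  classical
  rw [cop_apply]
  by_cases hg : g ∈ α.support
  · rw [Finset.sum_eq_single g]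
    · rw [inv_mul_cancel, dl_apply_self, mul_one]
    · intro k _ hk
      rw [dl_apply_ne, mul_zero]
      intro h
      apply hk
      have h1 : k⁻¹ * g = 1 := congrArg Prod.fst h
      exact (inv_mul_eq_one.1 h1)
    · intro h; exact absurd hg h
  · rw [Finsupp.notMem_support_iff.1 hg]
    apply Finset.sum_eq_zero
    intro k hk
    rw [dl_apply_ne, mul_zero]
    intro h
    have h1 : k⁻¹ * g = 1 := congrArg Prod.fst h
    rw [inv_mul_eq_one] at h1
    rw [h1] at hk
    exact hg hk

theorem cone_le_alg {P : Set G} (hP : IsCone P) (α : G →₀ ℂ) (hα : ∀ x ∈ α.support, x ∈ P)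
    (q : G → Prop) [DecidablePred q] (hq : ∀ x, q x ↔ x ∈ P ∧ x⁻¹ ∈ P) :
    vd (LinearMap.ker (cop α : EE G Unit →ₗ[ℂ] EE G Unit))
      ≤ vd (LinearMap.ker (cop (α.filter q) : EE G Unit →ₗ[ℂ] EE G Unit)) := by
  classical
  apply cone_le hP (cop α) (cop (α.filter q)) (cop_eqv _) (cop_eqv _)
  · rintro ⟨⟩ g ⟨⟩ hg
    rw [cop_dl]
    by_contra hne
    exact hg (hα g (Finsupp.mem_support_iff.2 hne))
  · rintro ⟨⟩ g ⟨⟩ h1 h2
    rw [cop_dl, cop_dl, Finsupp.filter_apply, if_pos ((hq g).2 ⟨h1, h2⟩)]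
  · rintro ⟨⟩ g ⟨⟩ h
    rw [cop_dl, Finsupp.filter_apply, if_neg (fun h' => h ((hq g).1 h'))]

theorem vd_ker_mapDomain (t : G) (α : G →₀ ℂ) :
    vd (LinearMap.ker (cop (α.mapDomain (fun x => t * x)) : EE G Unit →ₗ[ℂ] EE G Unit))
      = vd (LinearMap.ker (cop α : EE G Unit →ₗ[ℂ] EE G Unit)) := by
  have : LinearMap.ker (cop (α.mapDomain (fun x => t * x)) : EE G Unit →ₗ[ℂ] EE G Unit)
      = LinearMap.ker (cop α : EE G Unit →ₗ[ℂ] EE G Unit) := by
    rw [cop_mapDomain]
    ext f
    constructor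
    · intro hf
      have hf' : Ltr t (cop α f) = 0 := hf
      exact Ltr_injective t (hf'.trans (map_zero _).symm)
    · intro hf
      have hf' : cop α f = 0 := hf
      change Ltr t (cop α f) = 0
      rw [hf', map_zero]
  rw [this]

theorem filter_mapDomain (t : G) (α : G →₀ ℂ) (q : G → Prop) [DecidablePred q] :
    (α.mapDomain (fun x => t * x)).filter q
      = (α.filter (fun x => q (t * x))).mapDomain (fun x => t * x) := by
  classical
  ext x
  have hinj : Function.Injective (fun x : G => t * x) := mul_right_injective t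
  obtain ⟨y, rfl⟩ : ∃ y, t * y = x := ⟨t⁻¹ * x, by simp⟩
  rw [Finsupp.filter_apply]
  have e1 := Finsupp.mapDomain_apply hinj α y
  have e2 := Finsupp.mapDomain_apply hinj (α.filter (fun x => q (t * x))) y
  rw [e1, e2, Finsupp.filter_apply]

variable (H : Subgroup G) [LinearOrder (G ⧸ H)]

/-- the cone of an invariant order of the cosets -/
theorem isCone_of_order (hinv : ∀ (g : G) (a b : G ⧸ H), a ≤ b → g • a ≤ g • b) :
    IsCone {g : G | ((1 : G) : G ⧸ H) ≤ (g : G ⧸ H)} := by
  constructor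
  · intro x hx y hy
    have h1 := hinv x _ _ hy
    have e1 : x • (((1 : G) : G ⧸ H)) = (x : G ⧸ H) := by
      change (((x * 1 : G)) : G ⧸ H) = _
      rw [mul_one]
    rw [e1] at h1
    exact le_trans hx h1
  · intro x
    rcases le_total ((1 : G) : G ⧸ H) (x : G ⧸ H) with h | h
    · exact Or.inl h
    · right
      have h1 := hinv x⁻¹ _ _ h
      have e1 : x⁻¹ • (((1 : G) : G ⧸ H)) = ((x⁻¹ : G) : G ⧸ H) := by
        change (((x⁻¹ * 1 : G)) : G ⧸ H) = _
        rw [mul_one]
      have e2 : x⁻¹ • ((x : G ⧸ H)) = ((1 : G) : G ⧸ H) := by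
        change (((x⁻¹ * x : G)) : G ⧸ H) = _
        rw [inv_mul_cancel]
      rw [e1, e2] at h1
      exact h1

theorem order_inter (hinv : ∀ (g : G) (a b : G ⧸ H), a ≤ b → g • a ≤ g • b) (x : G) :
    x ∈ H ↔ x ∈ {g : G | ((1 : G) : G ⧸ H) ≤ (g : G ⧸ H)} ∧
      x⁻¹ ∈ {g : G | ((1 : G) : G ⧸ H) ≤ (g : G ⧸ H)} := by
  have key : ∀ y : G, y ∈ H ↔ ((1 : G) : G ⧸ H) = (y : G ⧸ H) := by
    intro y
    rw [QuotientGroup.eq]
    simp
  constructor
  · intro hx
    refine ⟨le_of_eq ((key x).1 hx), le_of_eq ((key _).1 (H.inv_mem hx))⟩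
  · rintro ⟨h1, h2⟩
    rw [key]
    apply le_antisymm h1
    have h3 := hinv x _ _ h2
    have e1 : x • (((1 : G) : G ⧸ H)) = (x : G ⧸ H) := by
      change (((x * 1 : G)) : G ⧸ H) = _
      rw [mul_one]
    have e2 : x • (((x⁻¹ : G)) : G ⧸ H) = ((1 : G) : G ⧸ H) := by
      change (((x * x⁻¹ : G)) : G ⧸ H) = _
      rw [mul_inv_cancel]
    rw [e1, e2] at h3
    exact h3

open Classical in
/-- **The lowest part inequality for elements of the group algebra.** -/
theorem order_le (hinv : ∀ (g : G) (a b : G ⧸ H), a ≤ b → g • a ≤ g • b) (α : G →₀ ℂ) (t : G)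
    (ht : ∀ x ∈ α.support, (t : G ⧸ H) ≤ (x : G ⧸ H)) :
    vd (LinearMap.ker (cop α : EE G Unit →ₗ[ℂ] EE G Unit))
      ≤ vd (LinearMap.ker
        (cop (α.filter (fun x : G => (x : G ⧸ H) = (t : G ⧸ H))) : EE G Unit →ₗ[ℂ] EE G Unit)) := by
  classical
  have h := cone_le_alg (isCone_of_order H hinv) (α.mapDomain (fun x => t⁻¹ * x)) (by
    intro x hx
    have h1 := Finsupp.mapDomain_support hx
    rw [Finset.mem_image] at h1
    obtain ⟨y, hy, rfl⟩ := h1
    have h2 := hinv t⁻¹ _ _ (ht y hy)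
    have e1 : t⁻¹ • ((t : G ⧸ H)) = ((1 : G) : G ⧸ H) := by
      change (((t⁻¹ * t : G)) : G ⧸ H) = _
      rw [inv_mul_cancel]
    rw [e1] at h2
    exact h2) (fun x : G => x ∈ H) (order_inter H hinv)
  rw [vd_ker_mapDomain, filter_mapDomain, vd_ker_mapDomain] at h
  have e : α.filter (fun x : G => t⁻¹ * x ∈ H) = α.filter (fun x : G => (x : G ⧸ H) = (t : G ⧸ H)) := by
    congr 1
    funext x
    rw [eq_comm (a := (x : G ⧸ H)), QuotientGroup.eq]
  rwa [e] at h

/-- If the nonzero elements of `ℂH` act injectively, so do those of `ℂG`. -/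
theorem order_injective (hinv : ∀ (g : G) (a b : G ⧸ H), a ≤ b → g • a ≤ g • b)
    (hH : ∀ β : H →₀ ℂ, β ≠ 0 → Function.Injective (cop β)) (α : G →₀ ℂ) (hα : α ≠ 0) :
    Function.Injective (cop α) := by
  classical
  obtain ⟨t, ht, hmin⟩ := Finset.exists_min_image α.support (fun x => (x : G ⧸ H))
    (Finsupp.support_nonempty_iff.2 hα)
  apply injective_of_vd_eq_zero _ (cop_eqv α)
  refine (order_le H hinv α t hmin).trans ?_
  rw [← vd_ker_mapDomain t⁻¹]
  set β := (α.filter (fun x : G => (x : G ⧸ H) = (t : G ⧸ H))).mapDomain (fun x => t⁻¹ * x) with hβ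
  have hβs : ∀ x ∈ β.support, x ∈ H := by
    intro x hx
    have h1 := Finsupp.mapDomain_support hx
    rw [Finset.mem_image] at h1
    obtain ⟨y, hy, rfl⟩ := h1
    rw [Finsupp.support_filter, Finset.mem_filter, eq_comm, QuotientGroup.eq] at hy
    exact hy.2
  have hβ1 : β 1 ≠ 0 := by
    have hinj : Function.Injective (fun x : G => t⁻¹ * x) := mul_right_injective t⁻¹
    have e1 := Finsupp.mapDomain_apply hinj
      (α.filter (fun x : G => (x : G ⧸ H) = (t : G ⧸ H))) t
    simp only [inv_mul_cancel] at e1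
    rw [hβ, e1, Finsupp.filter_apply, if_pos rfl]
    exact Finsupp.mem_support_iff.1 ht
  have hinj := injective_of_subgroup H β hβs (hH _ (by
    intro h0
    apply hβ1
    have := congrArg (fun F : H →₀ ℂ => F 1) h0
    exact this))
  exact le_of_eq (vd_ker_of_injective _ hinj)

end

/-- The nonzero elements of the group algebra of a left ordered group act injectively. -/
theorem leftOrdered_injective {G : Type u} [Group G] [LinearOrder G]
    (hinv : ∀ g a b : G, a ≤ b → g * a ≤ g * b) (α : G →₀ ℂ) (hα : α ≠ 0) :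
    Function.Injective (cop α) := by
  classical
  obtain ⟨t, ht, hmin⟩ := Finset.exists_min_image α.support (fun x => x)
    (Finsupp.support_nonempty_iff.2 hα)
  have hP : IsCone {g : G | 1 ≤ g} := by
    constructor
    · intro x hx y hy
      have h1 := hinv x _ _ hy
      rw [mul_one] at h1
      exact le_trans hx h1
    · intro x
      rcases le_total 1 x with h | h
      · exact Or.inl h
      · right
        have h1 := hinv x⁻¹ _ _ h
        rwa [mul_one, inv_mul_cancel] at h1
  have h := cone_le_alg hP (α.mapDomain (fun x => t⁻¹ * x)) (by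
    intro x hx
    have h1 := Finsupp.mapDomain_support hx
    rw [Finset.mem_image] at h1
    obtain ⟨y, hy, rfl⟩ := h1
    have h2 := hinv t⁻¹ _ _ (hmin y hy)
    rw [inv_mul_cancel] at h2
    exact h2) (fun x => x = 1) (by
      intro x
      constructor
      · rintro rfl
        exact ⟨le_refl _, by rw [inv_one]; exact le_refl _⟩
      · rintro ⟨h1, h2⟩
        have h3 := hinv x _ _ h2
        rw [mul_one, mul_inv_cancel] at h3
        exact le_antisymm h3 h1)
  rw [vd_ker_mapDomain] at h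
  set β := (α.mapDomain (fun x => t⁻¹ * x)).filter (fun x => x = 1) with hβ
  have hβe : β = Finsupp.single 1 (α t) := by
    ext x
    rw [hβ, Finsupp.filter_apply, Finsupp.single_apply]
    have hinj : Function.Injective (fun x : G => t⁻¹ * x) := mul_right_injective t⁻¹
    have e1 := Finsupp.mapDomain_apply hinj α t
    simp only [inv_mul_cancel] at e1
    by_cases hx : x = 1
    · rw [if_pos hx, if_pos hx.symm, hx, e1]
    · rw [if_neg hx, if_neg (Ne.symm hx)]
  have h2 : α t ≠ 0 := Finsupp.mem_support_iff.1 ht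
  have hinj : Function.Injective (cop β) := by
    rw [hβe, cop_single]
    intro f g hfg
    apply Ltr_injective (1 : G)
    exact smul_right_injective _ h2 hfg
  apply injective_of_vd_eq_zero _ (cop_eqv α)
  exact h.trans (le_of_eq (vd_ker_of_injective _ hinj))

end Pool.Agent.N309.LO
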