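import Pool.Agent.N309.LO.Free

set_option autoImplicit false
set_option linter.unusedSectionVars false

open scoped InnerProductSpace InnerProduct ENNReal

/-! The inequality between Betti numbers. -/

namespace Pool.Agent.N309.LO

open Pool.Agent.W649.ZL

universe u v w z y

section
variable {G : Type u} [Group G] {J : Type v} {I : Type w} {L : Type z} [Fintype J] [Fintype I]
  [Fintype L] [DecidableEq J] [DecidableEq I] [DecidableEq L]

/-- the reduced homology of `L → J → I` -/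
noncomputable def harm (A1 : EE G J →L[ℂ] EE G I) (A2 : EE G L →L[ℂ] EE G J) : Submodule ℂ (EE G J) :=
  LinearMap.ker (A1 : EE G J →ₗ[ℂ] EE G I) ⊓ (LinearMap.range (A2 : EE G L →ₗ[ℂ] EE G J))ᗮ

theorem inv_range (A2 : EE G L →L[ℂ] EE G J) (h2 : Eqv A2) :
    Pool.Agent.W649.ZL.Inv (LinearMap.range (A2 : EE G L →ₗ[ℂ] EE G J)) := by
  rintro k _ ⟨F, rfl⟩
  exact ⟨tr k F, h2 k F⟩

theorem vd_harm_eq (A1 : EE G J →L[ℂ] EE G I) (A2 : EE G L →L[ℂ] EE G J) (h2 : Eqv A2)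
    (h : ∀ F, A1 (A2 F) = 0) :
    vd (harm A1 A2) = vd (LinearMap.ker (A1 : EE G J →ₗ[ℂ] EE G I))
      + vd (LinearMap.ker (A2 : EE G L →ₗ[ℂ] EE G J)) - Fintype.card L := by
  have h3 := ker_add_range A2 h2
  have hle : (LinearMap.range (A2 : EE G L →ₗ[ℂ] EE G J)).topologicalClosure
      ≤ LinearMap.ker (A1 : EE G J →ₗ[ℂ] EE G I) := by
    apply Submodule.topologicalClosure_minimal _ _ (ContinuousLinearMap.isClosed_ker A1)
    rintro _ ⟨F, rfl⟩
    exact h F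
  have h4 := vd_sub (Submodule.isClosed_topologicalClosure _)
    (ContinuousLinearMap.isClosed_ker A1) hle
  rw [Submodule.orthogonal_closure, vd_closure] at h4
  unfold harm
  rw [h4]
  linarith

theorem vd_harm_ge (B1 : EE G J →L[ℂ] EE G I) (B2 : EE G L →L[ℂ] EE G J) (h1 : Eqv B1)
    (h2 : Eqv B2) :
    vd (LinearMap.ker (B1 : EE G J →ₗ[ℂ] EE G I))
      + vd (LinearMap.ker (B2 : EE G L →ₗ[ℂ] EE G J)) - Fintype.card L ≤ vd (harm B1 B2) := by
  have h3 := ker_add_range B2 h2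
  have hInv := Inv.topologicalClosure (inv_range B2 h2)
  have h4 := rank_nullity (LinearMap.range (B2 : EE G L →ₗ[ℂ] EE G J)).topologicalClosure.starProjection
    (proj_tr hInv) (inv_ker B1 h1) (ContinuousLinearMap.isClosed_ker B1)
  have h5 : LinearMap.ker ((LinearMap.range
      (B2 : EE G L →ₗ[ℂ] EE G J)).topologicalClosure.starProjection : EE G J →ₗ[ℂ] EE G J)
      = (LinearMap.range (B2 : EE G L →ₗ[ℂ] EE G J))ᗮ := by
    rw [← Submodule.orthogonal_closure]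
    ext x
    exact Submodule.starProjection_apply_eq_zero_iff _
  rw [h5] at h4
  have h6 : vd ((LinearMap.ker (B1 : EE G J →ₗ[ℂ] EE G I)).map ((LinearMap.range
      (B2 : EE G L →ₗ[ℂ] EE G J)).topologicalClosure.starProjection : EE G J →ₗ[ℂ] EE G J))
      ≤ vd (LinearMap.range (B2 : EE G L →ₗ[ℂ] EE G J)) := by
    rw [← vd_closure (LinearMap.range (B2 : EE G L →ₗ[ℂ] EE G J))]
    apply vd_mono
    rintro _ ⟨F, _, rfl⟩
    exact Submodule.starProjection_apply_mem _ _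
  unfold harm
  linarith

theorem betti_le (A1 B1 : EE G J →L[ℂ] EE G I) (A2 B2 : EE G L →L[ℂ] EE G J)
    (hA2 : Eqv A2) (hB1 : Eqv B1) (hB2 : Eqv B2) (h : ∀ F, A1 (A2 F) = 0)
    (h1 : vd (LinearMap.ker (A1 : EE G J →ₗ[ℂ] EE G I))
      ≤ vd (LinearMap.ker (B1 : EE G J →ₗ[ℂ] EE G I)))
    (h2 : vd (LinearMap.ker (A2 : EE G L →ₗ[ℂ] EE G J))
      ≤ vd (LinearMap.ker (B2 : EE G L →ₗ[ℂ] EE G J))) :
    vd (harm A1 A2) ≤ vd (harm B1 B2) := by
  have h3 := vd_harm_eq A1 A2 hA2 h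
  have h4 := vd_harm_ge B1 B2 hB1 hB2
  linarith

theorem harm_inv (A1 : EE G J →L[ℂ] EE G I) (A2 : EE G L →L[ℂ] EE G J) (h1 : Eqv A1)
    (h2 : Eqv A2) : Pool.Agent.W649.ZL.Inv (harm A1 A2) := by
  intro k F hF
  refine ⟨inv_ker A1 h1 k F hF.1, ?_⟩
  change tr k F ∈ (LinearMap.range (A2 : EE G L →ₗ[ℂ] EE G J))ᗮ
  rw [Submodule.mem_orthogonal]
  rintro _ ⟨H, rfl⟩
  have h3 : (A2 : EE G L →ₗ[ℂ] EE G J) H = tr k (A2 (tr k⁻¹ H)) := by
    change A2 H = _
    rw [← h2]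
    congr 1
    ext ⟨x, i⟩
    rw [tr_apply, tr_apply]
    change H (x, i) = H (x * k * k⁻¹, i)
    rw [mul_inv_cancel_right]
  have hF2 : F ∈ (LinearMap.range (A2 : EE G L →ₗ[ℂ] EE G J))ᗮ := hF.2
  rw [Submodule.mem_orthogonal] at hF2
  rw [h3, inner_tr_left]
  have h4 : tr k⁻¹ (tr k F) = F := by
    ext ⟨x, i⟩
    rw [tr_apply, tr_apply]
    change F (x * k⁻¹ * k, i) = F (x, i)
    rw [inv_mul_cancel_right]
  rw [h4]
  exact hF2 _ ⟨_, rfl⟩

theorem harm_closed (A1 : EE G J →L[ℂ] EE G I) (A2 : EE G L →L[ℂ] EE G J) :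
    IsClosed (harm A1 A2 : Set (EE G J)) := by
  unfold harm
  rw [Submodule.coe_inf]
  exact (ContinuousLinearMap.isClosed_ker A1).inter (Submodule.isClosed_orthogonal _)

end

end Pool.Agent.N309.LO
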