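import Pool.Agent.N309.LO.Char

set_option autoImplicit false
set_option linter.unusedSectionVars false

open scoped InnerProductSpace InnerProduct ENNReal

/-! Finite central subgroups: dimensions of isotypic components and kernels of matrices. -/

namespace Pool.Agent.N309.LO

open Pool.Agent.W649.ZL

universe u v w z y

section
variable {G : Type u} [Group G] {Z : Type v} [CommGroup Z] [Fintype Z] (ι : Z →* G)
  {K : Type w} {L : Type z} [Fintype K] [Fintype L] [DecidableEq K] [DecidableEq L]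

/-- the component at `χ` (times the order of `Z`) -/
noncomputable def pt (χ : Du Z) : EE G K →L[ℂ] EE G K :=
  ∑ z : Z, ch χ z⁻¹ • ∑ k : K, elem (ι z)⁻¹ k k

theorem pt_apply (χ : Du Z) (F : EE G K) (g : G) (k : K) :
    pt ι χ F (g, k) = ∑ z : Z, ch χ z⁻¹ * F (ι z * g, k) := by
  classical
  unfold pt
  rw [sum_apply, sum_apply_EE]
  refine Finset.sum_congr rfl fun z _ => ?_
  change ch χ z⁻¹ * ((∑ k : K, elem (ι z)⁻¹ k k : EE G K →L[ℂ] EE G K) F) (g, k) = _
  rw [sum_apply, sum_apply_EE, Finset.sum_eq_single k]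
  · rw [elem_apply, if_pos rfl, inv_inv]
  · intro k' _ hk'
    rw [elem_apply, if_neg (fun h => hk' h.symm)]
  · intro h
    exact absurd (Finset.mem_univ k) h

/-- vectors whose components outside `T` vanish -/
def isoS (T : K → Finset (Du Z)) : Submodule ℂ (EE G K) where
  carrier := {F | ∀ (χ : Du Z) (k : K) (g : G), χ ∉ T k → pt ι χ F (g, k) = 0}
  zero_mem' := by
    intro χ k g _
    rw [map_zero]
    rfl
  add_mem' := by
    intro a b ha hb χ k g h
    rw [map_add]
    have e : (pt ι χ a + pt ι χ b) (g, k) = pt ι χ a (g, k) + pt ι χ b (g, k) := rfl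
    rw [e, ha χ k g h, hb χ k g h, add_zero]
  smul_mem' := by
    intro c a ha χ k g h
    rw [map_smul]
    have e : (c • pt ι χ a) (g, k) = c * pt ι χ a (g, k) := rfl
    rw [e, ha χ k g h, mul_zero]

theorem isoS_closed (T : K → Finset (Du Z)) : IsClosed (isoS ι T : Set (EE G K)) := by
  have : (isoS ι T : Set (EE G K))
      = ⋂ (χ : Du Z) (k : K) (g : G) (_ : χ ∉ T k), {F | evL (g, k) (pt ι χ F) = 0} := by
    ext F
    simp only [Set.mem_iInter, Set.mem_ofPred_eq, evL_apply]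
    rfl
  rw [this]
  refine isClosed_iInter fun χ => isClosed_iInter fun k => isClosed_iInter fun g =>
    isClosed_iInter fun _ => ?_
  exact isClosed_eq ((evL (g, k)).continuous.comp (pt ι χ).continuous) continuous_const

theorem pt_eqv (χ : Du Z) : Eqv (pt (K := K) ι χ) := by
  intro k F
  ext ⟨g, i⟩
  rw [pt_apply, tr_apply, pt_apply]
  refine Finset.sum_congr rfl fun z _ => ?_
  rw [tr_apply, mul_assoc]

theorem isoS_inv (T : K → Finset (Du Z)) :
    Pool.Agent.W649.ZL.Inv (isoS ι T : Submodule ℂ (EE G K)) := by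
  intro k F hF χ i g h
  rw [pt_eqv ι χ, tr_apply]
  exact hF χ i _ h

/-- Fourier inversion -/
theorem inversion (F : EE G K) (g : G) (k : K) :
    ∑ χ : Du Z, pt ι χ F (g, k) = Fintype.card Z * F (g, k) := by
  classical
  have h1 : ∀ χ : Du Z, pt ι χ F (g, k) = ∑ z : Z, ch χ z⁻¹ * F (ι z * g, k) :=
    fun χ => pt_apply ι χ F g k
  rw [Finset.sum_congr rfl fun χ _ => h1 χ, Finset.sum_comm]
  have h2 : ∀ z : Z, ∑ χ : Du Z, ch χ z⁻¹ * F (ι z * g, k)
      = if z = 1 then Fintype.card Z * F (g, k) else 0 := by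
    intro z
    rw [← Finset.sum_mul, sum_ch]
    by_cases h : z = 1
    · rw [if_pos h, h, inv_one, if_pos rfl, map_one, one_mul]
    · rw [if_neg h, if_neg (fun h' => h (inv_eq_one.1 h')), zero_mul]
  rw [Finset.sum_congr rfl fun z _ => h2 z, Finset.sum_ite_eq' Finset.univ (1 : Z)
    (fun _ => (Fintype.card Z : ℂ) * F (g, k)), if_pos (Finset.mem_univ _)]

/-- the projection of the basis vector at `1` to the component at `χ` (times the order) -/
noncomputable def qv (χ : Du Z) (k : K) : EE G K := ∑ z : Z, ch χ z • dl (ι z, k)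

theorem qv_apply (χ : Du Z) (k : K) (x : G × K) :
    qv ι χ k x = ∑ z : Z, ch χ z * dl (ι z, k) x := by
  unfold qv
  rw [sum_apply_EE]
  rfl

theorem pt_qv (χ ψ : Du Z) (k : K) (h : χ ≠ ψ) (g : G) (k' : K) :
    pt ι ψ (qv ι χ k) (g, k') = 0 := by
  rw [pt_apply]
  have h1 : ∀ w : Z, ch ψ w⁻¹ * qv ι χ k (ι w * g, k')
      = (ch χ w * ch ψ w⁻¹) * qv ι χ k (g, k') := by
    intro w
    rw [qv_apply, qv_apply, Finset.mul_sum, Finset.mul_sum]
    refine Fintype.sum_equiv (Equiv.mulLeft w⁻¹) _ _ fun z => ?_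
    change ch ψ w⁻¹ * (ch χ z * dl (ι z, k) (ι w * g, k'))
      = ch χ w * ch ψ w⁻¹ * (ch χ (w⁻¹ * z) * dl (ι (w⁻¹ * z), k) (g, k'))
    have h2 : (dl (ι z, k) : EE G K) (ι w * g, k') = (dl (ι (w⁻¹ * z), k) : EE G K) (g, k') := by
      by_cases h3 : (g, k') = (ι (w⁻¹ * z), k)
      · have h4 : (ι w * g, k') = (ι z, k) := by
          rw [Prod.mk.injEq] at h3 ⊢
          refine ⟨?_, h3.2⟩
          rw [h3.1, ← ι.map_mul, mul_inv_cancel_left]
        rw [h3, h4, dl_apply_self, dl_apply_self]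
      · rw [dl_apply_ne _ _ h3, dl_apply_ne]
        intro h4
        apply h3
        rw [Prod.mk.injEq] at h4 ⊢
        refine ⟨?_, h4.2⟩
        rw [ι.map_mul, ← h4.1, ι.map_inv, inv_mul_cancel_left]
    rw [h2, ch_mul]
    have h5 := ch_mul_inv χ w
    calc ch ψ w⁻¹ * (ch χ z * dl (ι (w⁻¹ * z), k) (g, k'))
        = (ch χ w * ch χ w⁻¹) * (ch ψ w⁻¹ * (ch χ z * dl (ι (w⁻¹ * z), k) (g, k'))) := by
          rw [h5, one_mul]
      _ = _ := by ring
  rw [Finset.sum_congr rfl fun w _ => h1 w, ← Finset.sum_mul, orth χ ψ h, zero_mul]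

theorem pt_qv_ne (χ ψ : Du Z) (k : K) (g : G) (k' : K) (h : k' ≠ k) :
    pt ι ψ (qv ι χ k) (g, k') = 0 := by
  rw [pt_apply]
  apply Finset.sum_eq_zero
  intro w _
  rw [qv_apply]
  have h1 : ∀ z : Z, ch χ z * (dl (ι z, k) : EE G K) (ι w * g, k') = 0 := by
    intro z
    rw [dl_apply_ne, mul_zero]
    intro h2
    exact h (congrArg Prod.snd h2)
  rw [Finset.sum_congr rfl fun z _ => h1 z, Finset.sum_const_zero, mul_zero]

/-- the projection of the basis vector -/
noncomputable def pv (T : Finset (Du Z)) (k : K) : EE G K :=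
  (Fintype.card Z : ℂ)⁻¹ • ∑ χ ∈ T, qv ι χ k

theorem pv_mem (T : K → Finset (Du Z)) (k : K) : pv ι (T k) k ∈ isoS ι T := by
  unfold pv
  apply Submodule.smul_mem
  apply Submodule.sum_mem
  intro χ hχ ψ k' g hψ
  by_cases h : k' = k
  · subst h
    apply pt_qv
    intro h'
    exact hψ (h' ▸ hχ)
  · exact pt_qv_ne ι χ ψ k g k' h

theorem inner_qv (χ : Du Z) (k : K) (F : EE G K) : ⟪qv ι χ k, F⟫_ℂ = pt ι χ F (1, k) := by
  unfold qv
  rw [sum_inner, pt_apply]
  refine Finset.sum_congr rfl fun z _ => ?_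
  rw [inner_smul_left, inner_dl_left, ch_conj, mul_one]

theorem inner_pv (T : K → Finset (Du Z)) (k : K) (F : EE G K) (hF : F ∈ isoS ι T) :
    ⟪pv ι (T k) k, F⟫_ℂ = F (1, k) := by
  classical
  unfold pv
  rw [inner_smul_left, sum_inner, Finset.sum_congr rfl fun χ _ => inner_qv ι χ k F]
  have h1 : ∑ χ ∈ T k, pt ι χ F (1, k) = ∑ χ : Du Z, pt ι χ F (1, k) := by
    apply Finset.sum_subset (Finset.subset_univ _)
    intro χ _ hχ
    exact hF χ k 1 hχ
  rw [h1, inversion, map_inv₀, Complex.conj_natCast]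
  rw [inv_mul_cancel_left₀ (Nat.cast_ne_zero.2 Fintype.card_ne_zero)]

theorem proj_isoS (T : K → Finset (Du Z)) (k : K) :
    proj (isoS ι T) (dl ((1 : G), k)) = pv ι (T k) k := by
  apply proj_eq _ _ (pv_mem ι T k)
  intro F hF
  rw [inner_sub_left, inner_dl_left, inner_pv ι T k F hF, sub_self]

theorem pv_one (hinj : Function.Injective ι) (T : Finset (Du Z)) (k : K) :
    pv ι T k ((1 : G), k) = (T.card : ℂ) / Fintype.card Z := by
  classical
  have h1 : ∀ χ ∈ T, qv ι χ k ((1 : G), k) = 1 := by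
    intro χ _
    rw [qv_apply, Finset.sum_eq_single 1]
    · rw [ch_one, one_mul, map_one, dl_apply_self]
    · intro z _ hz
      rw [dl_apply_ne, mul_zero]
      intro h
      apply hz
      apply hinj
      rw [map_one]
      exact (congrArg Prod.fst h).symm
    · intro h
      exact absurd (Finset.mem_univ _) h
  have h2 : pv ι T k ((1 : G), k) = (Fintype.card Z : ℂ)⁻¹ * (∑ χ ∈ T, qv ι χ k) ((1 : G), k) := rfl
  rw [h2, sum_apply_EE, Finset.sum_congr rfl h1, Finset.sum_const, nsmul_eq_mul, mul_one,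
    inv_mul_eq_div]

theorem vd_isoS (hinj : Function.Injective ι) (T : K → Finset (Du Z)) :
    vd (isoS ι T : Submodule ℂ (EE G K)) = ((∑ k : K, (T k).card : ℕ) : ℝ) / Fintype.card Z := by
  unfold vd
  have h1 : ∀ k : K, ‖(isoS ι T : Submodule ℂ (EE G K)).topologicalClosure.starProjection
      (dl ((1 : G), k))‖ ^ 2 = ((T k).card : ℝ) / Fintype.card Z := by
    intro k
    rw [norm_sq_star]
    have h2 : (isoS ι T : Submodule ℂ (EE G K)).topologicalClosure.starProjection
        (dl ((1 : G), k)) = pv ι (T k) k := proj_isoS ι T k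
    rw [h2, inner_dl_left, pv_one ι hinj]
    have h3 : ((T k).card : ℂ) / Fintype.card Z
        = ((((T k).card : ℝ) / Fintype.card Z : ℝ) : ℂ) := by push_cast; rfl
    rw [h3, Complex.ofReal_re]
  rw [Finset.sum_congr rfl fun k _ => h1 k, ← Finset.sum_div, Nat.cast_sum]

end

end Pool.Agent.N309.LO
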