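import Pool.Agent.N309.LO.Cent

set_option autoImplicit false
set_option linter.unusedSectionVars false

open scoped InnerProductSpace InnerProduct ENNReal

/-! Kernels of matrices over central extensions. -/

namespace Pool.Agent.N309.LO

open Pool.Agent.W649.ZL

universe u v w z y

section
variable {G : Type u} [Group G] {Z : Type v} [CommGroup Z] [Fintype Z] (ι : Z →* G)
  {K : Type w} {L : Type z} [Fintype K] [Fintype L] [DecidableEq K] [DecidableEq L]

/-- the operator of the matrix `A` -/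
noncomputable def opT (T : Finset G) (A : K → L → (G →₀ ℂ)) : EE G K →L[ℂ] EE G L :=
  lin (famR (fun i : T × K × L => (i.1 : G)) (fun i => i.2.1) (fun i => i.2.2)) (coefT T A)

theorem opT_eqv (T : Finset G) (A : K → L → (G →₀ ℂ)) : Eqv (opT T A) :=
  lin_eqv _ (famR_eqv _ _ _) _

theorem opT_apply (T : Finset G) (A : K → L → (G →₀ ℂ)) (hT : ∀ k j, (A k j).support ⊆ T)
    (F : EE G K) (g : G) (j : L) :
    opT T A F (g, j) = ∑ k : K, (A k j).sum (fun y a => a * F (y * g, k)) :=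
  lin_op_apply T A hT F g j

theorem opT_rc (T : Finset G) (A : K → L → (G →₀ ℂ)) (hT : ∀ k j, (A k j).support ⊆ T)
    (F : EE G K) (g : G) (j : L) :
    opT T A F (g, j) = ∑ k : K, rc (fun h => F (h⁻¹, k)) (A k j) g⁻¹ := by
  rw [opT_apply T A hT]
  refine Finset.sum_congr rfl fun k _ => ?_
  rw [rc_def, Finsupp.sum]
  refine Finset.sum_congr rfl fun y _ => ?_
  rw [mul_inv_rev, inv_inv, inv_inv, mul_comm]

theorem opT_pt (hc : ∀ z g, ι z * g = g * ι z) (T : Finset G) (A : K → L → (G →₀ ℂ))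
    (hT : ∀ k j, (A k j).support ⊆ T) (χ : Du Z) (F : EE G K) :
    opT T A (pt ι χ F) = pt ι χ (opT T A F) := by
  ext ⟨g, j⟩
  rw [opT_apply T A hT, pt_apply]
  have h1 : ∀ z : Z, ch χ z⁻¹ * opT T A F (ι z * g, j)
      = ∑ k : K, ∑ y ∈ (A k j).support, ch χ z⁻¹ * (A k j y * F (ι z * (y * g), k)) := by
    intro z
    rw [opT_apply T A hT, Finset.mul_sum]
    refine Finset.sum_congr rfl fun k _ => ?_
    rw [Finsupp.sum, Finset.mul_sum]
    refine Finset.sum_congr rfl fun y _ => ?_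
    rw [← mul_assoc (ι z) y, hc z y, mul_assoc y]
  rw [Finset.sum_congr rfl fun z _ => h1 z, Finset.sum_comm]
  refine Finset.sum_congr rfl fun k _ => ?_
  rw [Finset.sum_comm, Finsupp.sum]
  refine Finset.sum_congr rfl fun y _ => ?_
  rw [pt_apply, Finset.mul_sum]
  refine Finset.sum_congr rfl fun z _ => ?_
  ring

theorem pt_shift (χ : Du Z) (F : EE G K) (z : Z) (g : G) (k : K) :
    pt ι χ F (ι z * g, k) = ch χ z * pt ι χ F (g, k) := by
  rw [pt_apply, pt_apply, Finset.mul_sum]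
  refine Fintype.sum_equiv (Equiv.mulRight z) _ _ fun w => ?_
  change ch χ w⁻¹ * F (ι w * (ι z * g), k) = ch χ z * (ch χ (w * z)⁻¹ * F (ι (w * z) * g, k))
  rw [mul_inv, ch_mul, ι.map_mul, mul_assoc (ι w)]
  have h1 := ch_mul_inv χ z
  calc ch χ w⁻¹ * F (ι w * (ι z * g), k)
      = (ch χ z * ch χ z⁻¹) * (ch χ w⁻¹ * F (ι w * (ι z * g), k)) := by rw [h1, one_mul]
    _ = _ := by ring

theorem isoP_pt (χ : Du Z) (F : EE G K) (k : K) :
    IsoP ι χ (fun h => pt ι χ F (h⁻¹, k)) := by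
  intro g z
  change pt ι χ F ((g * ι z)⁻¹, k) = ch χ z⁻¹ * pt ι χ F (g⁻¹, k)
  rw [mul_inv_rev, ← ι.map_inv, pt_shift]

theorem memlp_slice (F : EE G K) (k : K) : Memℓp (fun h : G => F (h⁻¹, k)) 2 := by
  rw [memlp_two_iff]
  have h1 := (memlp_two_iff _).1 F.2
  exact h1.comp_injective (i := fun h : G => (h⁻¹, k)) (by
    intro a b hh
    exact inv_injective (congrArg Prod.fst hh))

theorem opT_pt_zero (hc : ∀ z g, ι z * g = g * ι z) (T : Finset G) (A : K → L → (G →₀ ℂ))
    (hT : ∀ k j, (A k j).support ⊆ T) (χ : Du Z) (h0 : ∀ k j, cp ι χ (A k j) = 0) (F : EE G K) :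
    opT T A (pt ι χ F) = 0 := by
  ext ⟨g, j⟩
  rw [opT_rc T A hT]
  apply Finset.sum_eq_zero
  intro k _
  have h1 := rc_cp ι hc χ _ (isoP_pt ι χ F k) (A k j) g⁻¹
  rw [h0, rc_zero] at h1
  rcases mul_eq_zero.1 h1.symm with h2 | h2
  · exact absurd h2 (Nat.cast_ne_zero.2 Fintype.card_ne_zero)
  · exact h2

theorem exists_T (A : K → L → (G →₀ ℂ)) : ∃ T : Finset G, ∀ k j, (A k j).support ⊆ T := by
  classical
  refine ⟨Finset.univ.biUnion (fun k : K => Finset.univ.biUnion (fun j : L =>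
    (A k j).support)), ?_⟩
  intro k j x hx
  exact Finset.mem_biUnion.2 ⟨k, Finset.mem_univ _, Finset.mem_biUnion.2 ⟨j, Finset.mem_univ _, hx⟩⟩

theorem central_upper {X : Type y} [MulAction G X] [LinearOrder X] (hX : OrdInv G X)
    (hc : ∀ z g, ι z * g = g * ι z) (hinj : Function.Injective ι)
    (b : X) (hstab : ∀ g : G, g • b = b ↔ g ∈ Set.range ι) (A : K → L → (G →₀ ℂ))
    (S : Finset (Du Z)) (hS : ∀ χ ∈ S, ∃ k j, cp ι χ (A k j) ≠ 0) :
    kerDimM A ≤ (Fintype.card K : ℝ) - S.card / Fintype.card Z := by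
  classical
  obtain ⟨T, hT⟩ := exists_T A
  have hvd : kerDimM A = vd (LinearMap.ker (opT T A : EE G K →ₗ[ℂ] EE G L)) :=
    kerDimM_eq_vd T A hT
  have hkr := ker_add_range (opT T A) (opT_eqv T A)
  rcases Finset.eq_empty_or_nonempty S with hemp | ⟨χ₀, hχ₀⟩
  · rw [hemp, Finset.card_empty, Nat.cast_zero, zero_div, sub_zero, hvd]
    exact vd_le_card _
  obtain ⟨k₀, j₀, _⟩ := hS χ₀ hχ₀
  have : Nonempty K := ⟨k₀⟩
  have : Nonempty L := ⟨j₀⟩
  choose! kk jj hkj using hS
  let U : K → Finset (Du Z) := fun k => S.filter (fun χ => kk χ = k)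
  have hU : (∑ k : K, (U k).card) = S.card :=
    (Finset.card_eq_sum_card_fiberwise (f := kk) (t := Finset.univ)
      (fun _ _ => Finset.mem_univ _)).symm
  have hrn := rank_nullity (opT T A) (opT_eqv T A) (U := isoS ι U) (isoS_inv ι U) (isoS_closed ι U)
  have hbot : isoS ι U ⊓ LinearMap.ker (opT T A : EE G K →ₗ[ℂ] EE G L) = ⊥ := by
    rw [eq_bot_iff]
    rintro F ⟨hF1, hF2⟩
    have hF2' : opT T A F = 0 := hF2
    rw [Submodule.mem_bot]
    have hall : ∀ (χ : Du Z) (k : K) (g : G), pt ι χ F (g, k) = 0 := by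
      intro χ k g
      by_cases hχ : χ ∈ U k
      · have hχS : χ ∈ S := (Finset.mem_filter.1 hχ).1
        have hχk : kk χ = k := (Finset.mem_filter.1 hχ).2
        have hzero : (fun h => pt ι χ F (h⁻¹, k)) = 0 := by
          apply key_iso ι hX hc hinj b hstab χ _ (isoP_pt ι χ F k) (memlp_slice _ k)
            (A k (jj χ)) _ (by rw [← hχk]; exact hkj χ hχS)
          intro g'
          have h1 := opT_pt ι hc T A hT χ F
          rw [hF2', map_zero] at h1
          have h2 := opT_rc T A hT (pt ι χ F) g'⁻¹ (jj χ)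
          rw [h1, inv_inv] at h2
          have h3 : (0 : ℂ) = ∑ k' : K, rc (fun h => pt ι χ F (h⁻¹, k')) (A k' (jj χ)) g' := h2
          rw [Finset.sum_eq_single k] at h3
          · exact h3.symm
          · intro k' _ hk'
            have h4 : (fun h => pt ι χ F (h⁻¹, k')) = 0 := by
              funext h
              apply hF1 χ k' h⁻¹
              intro h5
              exact hk' ((Finset.mem_filter.1 h5).2.symm.trans hχk)
            rw [h4, rc_def]
            apply Finset.sum_eq_zero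
            intro y _
            exact zero_mul _
          · intro h
            exact absurd (Finset.mem_univ k) h
        have h5 := congrFun hzero g⁻¹
        simpa using h5
      · exact hF1 χ k g hχ
    ext ⟨g, k⟩
    have h1 := inversion ι F g k
    rw [Finset.sum_congr rfl fun χ _ => hall χ k g, Finset.sum_const_zero] at h1
    rcases mul_eq_zero.1 h1.symm with h2 | h2
    · exact absurd h2 (Nat.cast_ne_zero.2 Fintype.card_ne_zero)
    · exact h2
  rw [hbot, vd_bot, zero_add, vd_isoS ι hinj, hU] at hrn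
  have h3 : vd ((isoS ι U).map (opT T A : EE G K →ₗ[ℂ] EE G L))
      ≤ vd (LinearMap.range (opT T A : EE G K →ₗ[ℂ] EE G L)) := vd_mono (by
    rintro _ ⟨F, _, rfl⟩
    exact ⟨F, rfl⟩)
  rw [hvd]
  linarith

theorem central_lower_range (hc : ∀ z g, ι z * g = g * ι z) (hinj : Function.Injective ι)
    (A : K → L → (G →₀ ℂ)) (S : Finset (Du Z)) (hS : ∀ χ, χ ∉ S → ∀ k j, cp ι χ (A k j) = 0) :
    (Fintype.card K : ℝ) - Fintype.card L * (S.card / Fintype.card Z) ≤ kerDimM A := by
  classical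
  obtain ⟨T, hT⟩ := exists_T A
  have hvd : kerDimM A = vd (LinearMap.ker (opT T A : EE G K →ₗ[ℂ] EE G L)) :=
    kerDimM_eq_vd T A hT
  have hkr := ker_add_range (opT T A) (opT_eqv T A)
  have h3 : vd (LinearMap.range (opT T A : EE G K →ₗ[ℂ] EE G L))
      ≤ vd (isoS ι (fun _ : L => S) : Submodule ℂ (EE G L)) := vd_mono (by
    rintro _ ⟨F, rfl⟩ χ j g hχ
    change pt ι χ (opT T A F) (g, j) = 0
    rw [← opT_pt ι hc T A hT, opT_pt_zero ι hc T A hT χ (hS χ hχ)]
    rfl)
  rw [vd_isoS ι hinj, Finset.sum_const, Finset.card_univ, smul_eq_mul, Nat.cast_mul,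
    mul_div_assoc] at h3
  rw [hvd]
  linarith

theorem central_lower_ker (hc : ∀ z g, ι z * g = g * ι z) (hinj : Function.Injective ι)
    (A : K → L → (G →₀ ℂ)) (S : Finset (Du Z)) (hS : ∀ χ, χ ∉ S → ∀ k j, cp ι χ (A k j) = 0) :
    (Fintype.card K : ℝ) - Fintype.card K * (S.card / Fintype.card Z) ≤ kerDimM A := by
  classical
  obtain ⟨T, hT⟩ := exists_T A
  have hvd : kerDimM A = vd (LinearMap.ker (opT T A : EE G K →ₗ[ℂ] EE G L)) :=
    kerDimM_eq_vd T A hT
  have h3 : vd (isoS ι (fun _ : K => Sᶜ) : Submodule ℂ (EE G K))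
      ≤ vd (LinearMap.ker (opT T A : EE G K →ₗ[ℂ] EE G L)) := vd_mono (by
    intro F hF
    change opT T A F = 0
    ext ⟨g, j⟩
    have h1 := inversion ι (opT T A F) g j
    have h2 : ∀ χ : Du Z, pt ι χ (opT T A F) (g, j) = 0 := by
      intro χ
      rw [← opT_pt ι hc T A hT]
      by_cases hχ : χ ∈ S
      · have h4 : pt ι χ F = 0 := by
          ext ⟨g', k⟩
          apply hF χ k g'
          rw [Finset.mem_compl]
          exact fun h => h hχ
        rw [h4, map_zero]
        rfl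
      · rw [opT_pt_zero ι hc T A hT χ (hS χ hχ)]
        rfl
    rw [Finset.sum_congr rfl fun χ _ => h2 χ, Finset.sum_const_zero] at h1
    rcases mul_eq_zero.1 h1.symm with h5 | h5
    · exact absurd h5 (Nat.cast_ne_zero.2 Fintype.card_ne_zero)
    · exact h5)
  have hcard : (Sᶜ.card : ℝ) = Fintype.card Z - S.card := by
    rw [Finset.card_compl, card_Du, Nat.cast_sub]
    rw [← card_Du]
    exact Finset.card_le_univ S
  have hpos : (Fintype.card Z : ℝ) ≠ 0 := Nat.cast_ne_zero.2 Fintype.card_ne_zero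
  rw [vd_isoS ι hinj, Finset.sum_const, Finset.card_univ, smul_eq_mul, Nat.cast_mul, hcard] at h3
  rw [hvd]
  refine le_trans (le_of_eq ?_) h3
  field_simp

end

end Pool.Agent.N309.LO
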