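import Pool.Agent.N309.LO.OneLine

set_option autoImplicit false
set_option linter.unusedSectionVars false

open scoped InnerProductSpace InnerProduct ENNReal

/-! Finite central subgroups: isotypic components. -/

namespace Pool.Agent.N309.LO

open Pool.Agent.W649.ZL

universe u v w z y

section char
variable {Z : Type v} [CommGroup Z]

/-- the characters -/
abbrev Du (Z : Type v) [CommGroup Z] := AddChar (Additive Z) ℂ

/-- the value of a character -/
def ch (χ : Du Z) (z : Z) : ℂ := χ (Additive.ofMul z)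

theorem ch_mul (χ : Du Z) (a b : Z) : ch χ (a * b) = ch χ a * ch χ b := by
  unfold ch
  rw [ofMul_mul, AddChar.map_add_eq_mul]

theorem ch_one (χ : Du Z) : ch χ 1 = 1 := by
  unfold ch
  rw [ofMul_one, AddChar.map_zero_eq_one]

theorem ch_mul_inv (χ : Du Z) (z : Z) : ch χ z * ch χ z⁻¹ = 1 := by
  rw [← ch_mul, mul_inv_cancel, ch_one]

theorem ch_ne (χ : Du Z) (z : Z) : ch χ z ≠ 0 := left_ne_zero_of_mul_eq_one (ch_mul_inv χ z)

variable [Fintype Z]

theorem ch_conj (χ : Du Z) (z : Z) : (starRingEnd ℂ) (ch χ z) = ch χ z⁻¹ := by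
  have h1 : ‖ch χ z‖ = 1 := AddChar.norm_apply χ _
  have h2 : ch χ z⁻¹ = (ch χ z)⁻¹ := eq_inv_of_mul_eq_one_right (ch_mul_inv χ z)
  rw [h2, Complex.inv_def, Complex.normSq_eq_norm_sq, h1]
  simp

theorem sum_ch [DecidableEq Z] (z : Z) :
    ∑ χ : Du Z, ch χ z = if z = 1 then (Fintype.card Z : ℂ) else 0 := by
  classical
  unfold ch
  rw [AddChar.sum_apply_eq_ite]
  by_cases h : z = 1
  · rw [if_pos h, if_pos (by rw [h]; rfl),
      Fintype.card_congr (Additive.toMul : Additive Z ≃ Z)]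
  · rw [if_neg h, if_neg (by
      intro h'
      apply h
      exact Additive.ofMul.injective h')]

theorem card_Du : Fintype.card (Du Z) = Fintype.card Z := by
  have h : Fintype.card (AddChar (Additive Z) ℂ) = Fintype.card (Additive Z) := AddChar.card_eq
  exact h.trans (Fintype.card_congr (Additive.toMul : Additive Z ≃ Z))

theorem orth (χ ψ : Du Z) (h : χ ≠ ψ) : ∑ z : Z, ch χ z * ch ψ z⁻¹ = 0 := by
  classical
  -- there is `a` with `χ a ≠ ψ a`
  obtain ⟨a, ha⟩ : ∃ a : Z, ch χ a ≠ ch ψ a := by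
    by_contra hcon
    push Not at hcon
    apply h
    ext x
    exact hcon (Additive.toMul x)
  have h1 : ∑ z : Z, ch χ z * ch ψ z⁻¹ = ∑ z : Z, ch χ (a * z) * ch ψ (a * z)⁻¹ :=
    (Fintype.sum_equiv (Equiv.mulLeft a) _ _ fun y => rfl).symm
  have h2 : ∑ z : Z, ch χ (a * z) * ch ψ (a * z)⁻¹
      = ch χ a * ch ψ a⁻¹ * ∑ z : Z, ch χ z * ch ψ z⁻¹ := by
    rw [Finset.mul_sum]
    refine Finset.sum_congr rfl fun z _ => ?_
    rw [mul_inv, ch_mul, ch_mul]
    ring
  rw [h2] at h1
  have h3 : (1 - ch χ a * ch ψ a⁻¹) * ∑ z : Z, ch χ z * ch ψ z⁻¹ = 0 := by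
    rw [sub_mul, one_mul, ← h1, sub_self]
  rcases mul_eq_zero.1 h3 with h4 | h4
  · exfalso
    apply ha
    have h5 : ch χ a * ch ψ a⁻¹ = 1 := (sub_eq_zero.1 h4).symm
    have h6 := ch_mul_inv ψ a
    have h7 : ch ψ a⁻¹ ≠ 0 := ch_ne ψ a⁻¹
    apply mul_right_cancel₀ h7
    rw [h5, h6]
  · exact h4

end char

section rc
variable {G : Type u} [Group G]

/-- right convolution -/
noncomputable def rc (x : G → ℂ) (α : G →₀ ℂ) (g : G) : ℂ := α.sum (fun h a => x (g * h⁻¹) * a)

theorem rc_def (x : G → ℂ) (α : G →₀ ℂ) (g : G) :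
    rc x α g = ∑ h ∈ α.support, x (g * h⁻¹) * α h := rfl

theorem rc_single (x : G → ℂ) (h : G) (a : ℂ) (g : G) :
    rc x (Finsupp.single h a) g = x (g * h⁻¹) * a := by
  unfold rc
  rw [Finsupp.sum_single_index (by rw [mul_zero])]

theorem rc_add (x : G → ℂ) (α β : G →₀ ℂ) (g : G) : rc x (α + β) g = rc x α g + rc x β g := by
  classical
  unfold rc
  rw [Finsupp.sum_add_index']
  · intro a
    rw [mul_zero]
  · intro a b c
    rw [mul_add]

theorem rc_smul (x : G → ℂ) (c : ℂ) (α : G →₀ ℂ) (g : G) : rc x (c • α) g = c * rc x α g := by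
  unfold rc
  rw [Finsupp.sum_smul_index (by intro i; rw [mul_zero]), Finsupp.mul_sum]
  refine Finset.sum_congr rfl fun h _ => ?_
  ring

theorem rc_zero (x : G → ℂ) (g : G) : rc x (0 : G →₀ ℂ) g = 0 := Finsupp.sum_zero_index

theorem rc_sum {ι : Type*} (s : Finset ι) (x : G → ℂ) (α : ι → (G →₀ ℂ)) (g : G) :
    rc x (∑ i ∈ s, α i) g = ∑ i ∈ s, rc x (α i) g := by
  classical
  induction s using Finset.induction_on with
  | empty => rw [Finset.sum_empty, Finset.sum_empty, rc_zero]
  | insert a s ha ih => rw [Finset.sum_insert ha, Finset.sum_insert ha, rc_add, ih]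

/-- `α` shifted by `t` -/
noncomputable def sh (α : G →₀ ℂ) (t : G) : G →₀ ℂ :=
  Finsupp.equivMapDomain (Equiv.mulRight t⁻¹) α

theorem sh_apply (α : G →₀ ℂ) (t h : G) : sh α t h = α (h * t) := by
  unfold sh
  rw [Finsupp.equivMapDomain_apply]
  congr 1
  change h * t⁻¹⁻¹ = h * t
  rw [inv_inv]

theorem rc_sh (x : G → ℂ) (α : G →₀ ℂ) (t g : G) : rc x (sh α t) g = rc x α (g * t) := by
  unfold rc sh
  rw [Finsupp.equivMapDomain_eq_mapDomain,
    Finsupp.sum_mapDomain_index_inj (Equiv.mulRight t⁻¹).injective]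
  refine Finset.sum_congr rfl fun h _ => ?_
  change x (g * (h * t⁻¹)⁻¹) * α h = x (g * t * h⁻¹) * α h
  rw [mul_inv_rev, inv_inv, mul_assoc]

end rc

section iso
variable {G : Type u} [Group G] {Z : Type v} [CommGroup Z] [Fintype Z] (ι : Z →* G)

/-- the component of `α` at `χ` -/
noncomputable def cp (χ : Du Z) (α : G →₀ ℂ) : G →₀ ℂ := ∑ z : Z, ch χ z • sh α (ι z)

theorem cp_apply (χ : Du Z) (α : G →₀ ℂ) (h : G) : cp ι χ α h = ∑ z : Z, ch χ z * α (h * ι z) := by
  unfold cp
  rw [Finsupp.finsetSum_apply]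
  refine Finset.sum_congr rfl fun z _ => ?_
  rw [Finsupp.smul_apply, sh_apply, smul_eq_mul]

theorem cp_mul (χ : Du Z) (α : G →₀ ℂ) (h : G) (w : Z) :
    cp ι χ α (h * ι w) = ch χ w⁻¹ * cp ι χ α h := by
  rw [cp_apply, cp_apply, Finset.mul_sum]
  refine Fintype.sum_equiv (Equiv.mulLeft w) _ _ fun z => ?_
  change ch χ z * α (h * ι w * ι z) = ch χ w⁻¹ * (ch χ (w * z) * α (h * ι (w * z)))
  rw [ch_mul, ι.map_mul, mul_assoc h]
  have h1 := ch_mul_inv χ w
  calc ch χ z * α (h * (ι w * ι z))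
      = (ch χ w * ch χ w⁻¹) * (ch χ z * α (h * (ι w * ι z))) := by rw [h1, one_mul]
    _ = _ := by ring

/-- `x` is in the component at `χ` -/
def IsoP (χ : Du Z) (x : G → ℂ) : Prop := ∀ g z, x (g * ι z) = ch χ z⁻¹ * x g

theorem rc_mul (hc : ∀ z g, ι z * g = g * ι z) (χ : Du Z) (x : G → ℂ) (hx : IsoP ι χ x)
    (α : G →₀ ℂ) (g : G) (z : Z) : rc x α (g * ι z) = ch χ z⁻¹ * rc x α g := by
  unfold rc
  rw [Finsupp.mul_sum]
  refine Finset.sum_congr rfl fun h _ => ?_
  change x (g * ι z * h⁻¹) * α h = ch χ z⁻¹ * (x (g * h⁻¹) * α h)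
  rw [mul_assoc g, hc, ← mul_assoc, hx]
  ring

theorem rc_cp (hc : ∀ z g, ι z * g = g * ι z) (χ : Du Z) (x : G → ℂ) (hx : IsoP ι χ x)
    (α : G →₀ ℂ) (g : G) : rc x (cp ι χ α) g = Fintype.card Z * rc x α g := by
  unfold cp
  rw [rc_sum]
  have h1 : ∀ z : Z, rc x (ch χ z • sh α (ι z)) g = rc x α g := by
    intro z
    rw [rc_smul, rc_sh, rc_mul ι hc χ x hx, ← mul_assoc, ch_mul_inv, one_mul]
  rw [Finset.sum_congr rfl fun z _ => h1 z, Finset.sum_const, Finset.card_univ, nsmul_eq_mul]

variable {X : Type y} [MulAction G X] [LinearOrder X]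

theorem key_iso (hX : OrdInv G X) (hc : ∀ z g, ι z * g = g * ι z) (hinj : Function.Injective ι)
    (b : X) (hstab : ∀ g : G, g • b = b ↔ g ∈ Set.range ι) (χ : Du Z) (x : G → ℂ)
    (hx : IsoP ι χ x) (hmem : Memℓp x 2) (α : G →₀ ℂ) (hk : ∀ g, rc x α g = 0)
    (hα : cp ι χ α ≠ 0) : x = 0 := by
  classical
  obtain ⟨t, ht, hmin⟩ := Finset.exists_min_image (cp ι χ α).support (fun h => h⁻¹ • b)
    (Finsupp.support_nonempty_iff.2 hα)
  have hcard : (Fintype.card Z : ℂ) ≠ 0 := Nat.cast_ne_zero.2 Fintype.card_ne_zero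
  have hb : ∀ z : Z, ι z • b = b := fun z => (hstab _).2 ⟨z, rfl⟩
  -- the matrices
  let D : Z → (G →₀ ℂ) := fun z => Finsupp.single (ι z) 1 - Finsupp.single 1 (ch χ z)
  let A : Unit → Option Z → (G →₀ ℂ) := fun _ j => j.elim (cp ι χ α) D
  let B0 : G →₀ ℂ := ∑ z : Z, Finsupp.single (t * ι z) (cp ι χ α (t * ι z))
  let B : Unit → Option Z → (G →₀ ℂ) := fun _ j => j.elim B0 D
  have hD : ∀ z h, D z h ≠ 0 → h • b = b := by
    intro z h hne
    by_cases h1 : h = ι z
    · rw [h1]
      exact hb z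
    · by_cases h2 : h = 1
      · rw [h2, one_smul]
      · exfalso
        apply hne
        change (Finsupp.single (ι z) (1 : ℂ) - Finsupp.single 1 (ch χ z) : G →₀ ℂ) h = 0
        rw [Finsupp.sub_apply, Finsupp.single_apply, Finsupp.single_apply,
          if_neg (fun h' => h1 h'.symm), if_neg (fun h' => h2 h'.symm), sub_self]
  have hrcD : ∀ (f : G → ℂ) (z : Z) (g : G), rc f (D z) g = f (g * (ι z)⁻¹) - ch χ z * f g := by
    intro f z g
    have e : D z = Finsupp.single (ι z) 1 + (-1 : ℂ) • Finsupp.single 1 (ch χ z) := by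
      change Finsupp.single (ι z) (1 : ℂ) - Finsupp.single 1 (ch χ z) = _
      rw [neg_one_smul, sub_eq_add_neg]
    rw [e, rc_add, rc_smul, rc_single, rc_single, inv_one, mul_one, mul_one, neg_one_mul,
      mul_comm (f g), ← sub_eq_add_neg]
  -- levels
  have hle : kerDimM A ≤ kerDimM B := by
    apply mat_le hX (fun _ => b) (fun j : Option Z => j.elim (t⁻¹ • b) (fun _ => b)) A B
    · rintro ⟨⟩ j h hh
      cases j with
      | none =>
        have h1 := hmin h hh
        have h2 := hX h _ _ h1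
        rwa [smul_inv_smul] at h2
      | some z => exact (hD z h (Finsupp.mem_support_iff.1 hh)).le
    · rintro ⟨⟩ j h hh
      cases j with
      | none =>
        have h1 : (h * t⁻¹) • b = b := by
          rw [mul_smul]
          exact hh
        obtain ⟨z, hz⟩ := (hstab _).1 h1
        have h2 : h = t * ι z := by
          rw [← hc, hz, inv_mul_cancel_right]
        change B0 h = cp ι χ α h
        change (∑ z : Z, Finsupp.single (t * ι z) (cp ι χ α (t * ι z))) h = _
        rw [Finsupp.finsetSum_apply, Finset.sum_eq_single z]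
        · rw [← h2, Finsupp.single_eq_same]
        · intro z' _ hz'
          rw [Finsupp.single_apply, if_neg]
          intro h3
          rw [h2] at h3
          exact hz' (hinj (mul_left_cancel h3))
        · intro h3
          exact absurd (Finset.mem_univ z) h3
      | some z => rfl
    · rintro ⟨⟩ j h hh
      cases j with
      | none =>
        change (∑ z : Z, Finsupp.single (t * ι z) (cp ι χ α (t * ι z))) h = 0
        rw [Finsupp.finsetSum_apply]
        apply Finset.sum_eq_zero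
        intro z _
        rw [Finsupp.single_apply, if_neg]
        intro h3
        apply hh
        change h • t⁻¹ • b = b
        rw [← h3, ← hc, mul_smul, smul_inv_smul]
        exact hb z
      | some z =>
        by_contra hne
        exact hh (hD z h hne)
  have hB : kerDimM B = 0 := by
    apply kerDimM_eq_zero_of
    intro x' hx'
    have hker : ∀ (j : Option Z) (g : G), rc (fun g => x' ((), g)) (B () j) g = 0 := by
      intro j g
      have h1 := hx' j g
      rw [Fintype.sum_unique] at h1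
      exact h1
    have h1 : ∀ (z : Z) (g : G), x' ((), g * (ι z)⁻¹) = ch χ z * x' ((), g) := by
      intro z g
      have h2 : rc (fun g => x' ((), g)) (D z) g = 0 := hker (some z) g
      rw [hrcD] at h2
      exact sub_eq_zero.1 h2
    have h2 : ∀ g : G, x' ((), g * t⁻¹) = 0 := by
      intro g
      have h3 : rc (fun g => x' ((), g)) B0 g = 0 := hker none g
      have h4 : ∀ z : Z, rc (fun g => x' ((), g)) (Finsupp.single (t * ι z) (cp ι χ α (t * ι z))) g
          = x' ((), g * t⁻¹) * cp ι χ α t := by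
        intro z
        rw [rc_single, cp_mul]
        have h5 : g * (t * ι z)⁻¹ = g * t⁻¹ * (ι z)⁻¹ := by
          rw [← hc, mul_inv_rev, mul_assoc]
        change x' ((), g * (t * ι z)⁻¹) * _ = _
        rw [h5, h1]
        have h6 := ch_mul_inv χ z
        calc ch χ z * x' ((), g * t⁻¹) * (ch χ z⁻¹ * cp ι χ α t)
            = (ch χ z * ch χ z⁻¹) * (x' ((), g * t⁻¹) * cp ι χ α t) := by ring
          _ = _ := by rw [h6, one_mul]
      have h7 : rc (fun g => x' ((), g)) B0 g
          = Fintype.card Z * (x' ((), g * t⁻¹) * cp ι χ α t) := by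
        change rc _ (∑ z : Z, Finsupp.single (t * ι z) (cp ι χ α (t * ι z))) g = _
        rw [rc_sum, Finset.sum_congr rfl fun z _ => h4 z, Finset.sum_const, Finset.card_univ,
          nsmul_eq_mul]
      rw [h7] at h3
      rcases mul_eq_zero.1 h3 with h8 | h8
      · exact absurd h8 hcard
      · rcases mul_eq_zero.1 h8 with h9 | h9
        · exact h9
        · exact absurd h9 (Finsupp.mem_support_iff.1 ht)
    ext ⟨⟨⟩, g⟩
    have h3 := h2 (g * t)
    rw [mul_inv_cancel_right] at h3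
    exact h3
  have hA : kerDimM A = 0 := le_antisymm (hle.trans hB.le) (kerDimM_nonneg A)
  have hmem' : Memℓp (fun w : Unit × G => x w.2) 2 := by
    rw [memlp_two_iff] at hmem ⊢
    exact hmem.comp_injective (i := fun w : Unit × G => w.2) (by
      rintro ⟨a, b⟩ ⟨c, d⟩ hh
      exact Prod.ext (Subsingleton.elim _ _) hh)
  have hfin := kern_of_kerDimM_eq_zero A hA
    (⟨fun w : Unit × G => x w.2, hmem'⟩ : lp (fun _ : Unit × G => ℂ) 2) (by
      intro j g
      rw [Fintype.sum_unique]
      cases j with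
      | none =>
        have h1 : rc x (cp ι χ α) g = 0 := by rw [rc_cp ι hc χ x hx, hk, mul_zero]
        exact h1
      | some z =>
        have h1 : rc x (D z) g = 0 := by
          rw [hrcD, ← map_inv, hx, inv_inv, sub_self]
        exact h1)
  funext g
  exact congrArg (fun H : lp (fun _ : Unit × G => ℂ) 2 => H ((), g)) hfin

end iso

end Pool.Agent.N309.LO
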