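import Pool.Agent.W649.ZL.Supp

set_option autoImplicit false
set_option linter.unusedSectionVars false

open scoped InnerProductSpace InnerProduct ENNReal

/-! A Szegő type inequality for the kernel dimension of operators supported on a total cone. -/

namespace Pool.Agent.N309.LO

open Pool.Agent.W649.ZL

universe u v w

/-- Bessel's inequality for orthogonal projections. -/
theorem bessel {E : Type*} [NormedAddCommGroup E] [InnerProductSpace ℂ E] {ι : Type*}
    (s : Finset ι) (y : ι → E) (f : E)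
    (horth : ∀ a ∈ s, ∀ b ∈ s, a ≠ b → ⟪y a, y b⟫_ℂ = 0)
    (hpr : ∀ a ∈ s, ⟪y a, f⟫_ℂ = ⟪y a, y a⟫_ℂ) : ∑ a ∈ s, ‖y a‖ ^ 2 ≤ ‖f‖ ^ 2 := by
  classical
  have hYY : ⟪∑ a ∈ s, y a, ∑ a ∈ s, y a⟫_ℂ = ∑ a ∈ s, ⟪y a, y a⟫_ℂ := by
    rw [sum_inner]
    refine Finset.sum_congr rfl fun a ha => ?_
    rw [inner_sum, Finset.sum_eq_single a]
    · intro b hb hne
      exact horth a ha b hb (Ne.symm hne)
    · intro h; exact absurd ha h
  have hYf : ⟪∑ a ∈ s, y a, f⟫_ℂ = ∑ a ∈ s, ⟪y a, y a⟫_ℂ := by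
    rw [sum_inner]
    exact Finset.sum_congr rfl fun a ha => hpr a ha
  have e1 : ∑ a ∈ s, ⟪y a, y a⟫_ℂ = ((∑ a ∈ s, ‖y a‖ ^ 2 : ℝ) : ℂ) := by
    push_cast
    refine Finset.sum_congr rfl fun a _ => ?_
    rw [inner_self_eq_norm_sq_to_K]
    norm_cast
  have h1 : ‖∑ a ∈ s, y a‖ ^ 2 = ∑ a ∈ s, ‖y a‖ ^ 2 := by
    apply Complex.ofReal_injective
    rw [← e1, ← hYY, inner_self_eq_norm_sq_to_K]
    push_cast
    rfl
  have h2 : ‖⟪∑ a ∈ s, y a, f⟫_ℂ‖ ≤ ‖∑ a ∈ s, y a‖ * ‖f‖ := norm_inner_le_norm _ _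
  rw [hYf, e1] at h2
  have h3 : (0 : ℝ) ≤ ∑ a ∈ s, ‖y a‖ ^ 2 := Finset.sum_nonneg fun _ _ => by positivity
  rw [Complex.norm_real, Real.norm_of_nonneg h3, ← h1] at h2
  rw [← h1]
  set a := ‖∑ a ∈ s, y a‖
  have ha : 0 ≤ a := norm_nonneg _
  have hf : 0 ≤ ‖f‖ := norm_nonneg _
  rcases ha.eq_or_lt with h0 | h0
  · rw [← h0, zero_pow two_ne_zero]; positivity
  · have h4 : a ≤ ‖f‖ := by
      rw [sq] at h2
      exact le_of_mul_le_mul_left h2 h0
    gcongr

section
variable {G : Type u} {I : Type v} {J : Type w} [Group G]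

/-- A total cone: a subsemigroup `P` with `P ∪ P⁻¹ = G`. -/
structure IsCone (P : Set G) : Prop where
  mul : ∀ x ∈ P, ∀ y ∈ P, x * y ∈ P
  total : ∀ x, x ∈ P ∨ x⁻¹ ∈ P

theorem IsCone.one {P : Set G} (hP : IsCone P) : (1 : G) ∈ P := by
  rcases hP.total 1 with h | h
  · exact h
  · rwa [inv_one] at h

/-- the strict part -/
def strict (P : Set G) : Set G := {x | x ∈ P ∧ x⁻¹ ∉ P}

theorem IsCone.mul_strict {P : Set G} (hP : IsCone P) {x y : G} (hx : x ∈ P) (hy : y ∈ strict P) :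
    x * y ∈ strict P := by
  refine ⟨hP.mul x hx y hy.1, fun h => hy.2 ?_⟩
  have := hP.mul _ h _ hx
  rwa [mul_inv_rev, mul_assoc, inv_mul_cancel, mul_one] at this

theorem IsCone.strict_mul {P : Set G} (hP : IsCone P) {x y : G} (hx : x ∈ strict P) (hy : y ∈ P) :
    x * y ∈ strict P := by
  refine ⟨hP.mul x hx.1 y hy, fun h => hx.2 ?_⟩
  have := hP.mul _ hy _ h
  rwa [mul_inv_rev, ← mul_assoc, mul_inv_cancel, one_mul] at this

/-- right translation as a continuous linear map -/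
noncomputable def trL (k : G) : EE G J →L[ℂ] EE G J :=
  LinearMap.mkContinuous
    { toFun := tr k
      map_add' := tr_add k
      map_smul' := tr_smul k } 1 (fun f => by
        change ‖tr k f‖ ≤ 1 * ‖f‖
        rw [norm_tr, one_mul])

theorem trL_apply (k : G) (f : EE G J) : trL k f = tr k f := rfl

/-- evaluation at a point -/
noncomputable def evL (x : G × J) : EE G J →L[ℂ] ℂ := innerSL ℂ (dl x)

theorem evL_apply (x : G × J) (f : EE G J) : evL x f = f x := inner_dl_left x f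

theorem dl_eq_tr (g : G) (j : J) : (dl (g, j) : EE G J) = tr g⁻¹ (dl (1, j)) := by
  rw [tr_dl, one_mul, inv_inv]

theorem eqv_dl {A : EE G J →L[ℂ] EE G I} (hA : Eqv A) (g h : G) (j : J) (i : I) :
    A (dl (g, j)) (h, i) = A (dl (1, j)) (h * g⁻¹, i) := by
  rw [dl_eq_tr, hA, tr_apply]

/-- projection onto the closure -/
noncomputable def proj (W : Submodule ℂ (EE G J)) : EE G J →L[ℂ] EE G J :=
  W.topologicalClosure.starProjection

/-- a closed subspace with all basis vectors is everything -/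
theorem eq_top_of_dl (M : Submodule ℂ (EE G J)) (hM : IsClosed (M : Set (EE G J)))
    (h : ∀ x, dl x ∈ M) : M = ⊤ := by
  have : CompleteSpace M := hM.completeSpace_coe
  rw [← Submodule.orthogonal_eq_bot_iff, eq_bot_iff]
  intro f hf
  rw [Submodule.mem_orthogonal] at hf
  rw [Submodule.mem_bot]
  ext x
  rw [← inner_dl_left x f, hf _ (h x)]
  rfl

/-- the closure of the span of the projections of the basis vectors in `X` -/
noncomputable def SX (Q : EE G J →L[ℂ] EE G J) (X : Set G) : Submodule ℂ (EE G J) :=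
  (Submodule.span ℂ {f | ∃ g j, g ∈ X ∧ f = Q (dl (g, j))}).topologicalClosure

theorem SX_mem (Q : EE G J →L[ℂ] EE G J) (X : Set G) {g : G} (hg : g ∈ X) (j : J) :
    Q (dl (g, j)) ∈ SX Q X :=
  Submodule.le_topologicalClosure _ (Submodule.subset_span ⟨g, j, hg, rfl⟩)

theorem SX_closed (Q : EE G J →L[ℂ] EE G J) (X : Set G) : IsClosed (SX Q X : Set (EE G J)) :=
  Submodule.isClosed_topologicalClosure _

theorem SX_le (Q : EE G J →L[ℂ] EE G J) (X : Set G) (M : Submodule ℂ (EE G J))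
    (hM : IsClosed (M : Set (EE G J))) (h : ∀ g j, g ∈ X → Q (dl (g, j)) ∈ M) : SX Q X ≤ M := by
  apply Submodule.topologicalClosure_minimal _ _ hM
  rw [Submodule.span_le]
  rintro f ⟨g, j, hg, rfl⟩
  exact h g j hg

theorem SX_mono (Q : EE G J →L[ℂ] EE G J) {X Y : Set G} (h : X ⊆ Y) : SX Q X ≤ SX Q Y :=
  SX_le Q X _ (SX_closed Q Y) fun _ j hg => SX_mem Q Y (h hg) j

theorem SX_tr {Q : EE G J →L[ℂ] EE G J} (hQ : Eqv Q) (k : G) {X Y : Set G}
    (h : ∀ x ∈ X, x * k⁻¹ ∈ Y) {f : EE G J} (hf : f ∈ SX Q X) : tr k f ∈ SX Q Y := by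
  have hle : SX Q X ≤ (SX Q Y).comap ((trL k : EE G J →L[ℂ] EE G J) : EE G J →ₗ[ℂ] EE G J) := by
    apply SX_le
    · exact (SX_closed Q Y).preimage (trL (J := J) k).continuous
    · intro g j hg
      change tr k (Q (dl (g, j))) ∈ SX Q Y
      rw [← hQ, tr_dl]
      exact SX_mem Q Y (h g hg) j
  exact hle hf

end

section
variable {G : Type u} {I : Type v} {J : Type w} [Group G]
variable (P : Set G) (Q : EE G J →L[ℂ] EE G J)

/-- elements at least `g` -/
def up (g : G) : Set G := {h | h * g⁻¹ ∈ P}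

/-- elements greater than `g` -/
def up0 (g : G) : Set G := {h | h * g⁻¹ ∈ strict P}

/-- the wandering subspace -/
noncomputable def WW (g : G) : Submodule ℂ (EE G J) := SX Q (up P g) ⊓ (SX Q (up0 P g))ᗮ

theorem WW_closed (g : G) : IsClosed (WW P Q g : Set (EE G J)) := by
  unfold WW
  rw [Submodule.coe_inf]
  exact (SX_closed _ _).inter (Submodule.isClosed_orthogonal _)

variable {P Q}

theorem WW_tr (hQ : Eqv Q) (k g : G) {f : EE G J} (hf : f ∈ WW P Q (g * k)) :
    tr k f ∈ WW P Q g := by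
  refine ⟨SX_tr hQ k ?_ hf.1, ?_⟩
  · intro x hx
    change x * k⁻¹ * g⁻¹ ∈ P
    have : x * (g * k)⁻¹ ∈ P := hx
    rwa [mul_inv_rev, ← mul_assoc] at this
  · change tr k f ∈ (SX Q (up0 P g))ᗮ
    rw [Submodule.mem_orthogonal]
    intro v hv
    have h1 : ⟪v, tr k f⟫_ℂ = ⟪tr k⁻¹ v, f⟫_ℂ := by
      rw [inner_tr_left, inv_inv]
    rw [h1]
    have h2 : f ∈ (SX Q (up0 P (g * k)))ᗮ := hf.2
    rw [Submodule.mem_orthogonal] at h2
    apply h2
    refine SX_tr hQ k⁻¹ ?_ hv
    intro x hx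
    change x * k⁻¹⁻¹ * (g * k)⁻¹ ∈ strict P
    have h3 : x * g⁻¹ ∈ strict P := hx
    rwa [inv_inv, mul_inv_rev, ← mul_assoc, mul_assoc x, mul_inv_cancel, mul_one]

theorem proj_mem {W : Submodule ℂ (EE G J)} (hW : IsClosed (W : Set (EE G J))) (f : EE G J) :
    proj W f ∈ W := by
  have h := Submodule.starProjection_apply_mem W.topologicalClosure f
  exact Submodule.topologicalClosure_minimal _ le_rfl hW h

theorem proj_eq {W : Submodule ℂ (EE G J)} (f y : EE G J) (hy : y ∈ W)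
    (h : ∀ w ∈ W, ⟪f - y, w⟫_ℂ = 0) : proj W f = y := by
  unfold proj
  apply Submodule.eq_starProjection_of_mem_of_inner_eq_zero
  · exact Submodule.le_topologicalClosure _ hy
  · intro w hw
    have hle : W.topologicalClosure ≤ (ℂ ∙ (f - y))ᗮ := by
      apply Submodule.topologicalClosure_minimal _ _ (Submodule.isClosed_orthogonal _)
      intro w hw
      rw [Submodule.mem_orthogonal_singleton_iff_inner_right]
      exact h w hw
    have := hle hw
    rwa [Submodule.mem_orthogonal_singleton_iff_inner_right] at this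

theorem proj_inner {W : Submodule ℂ (EE G J)} (f w : EE G J) (hw : w ∈ W) :
    ⟪f - proj W f, w⟫_ℂ = 0 :=
  Submodule.starProjection_inner_eq_zero f w (Submodule.le_topologicalClosure _ hw)

theorem proj_WW_tr (hQ : Eqv Q) (k g : G) (f : EE G J) :
    proj (WW P Q g) (tr k f) = tr k (proj (WW P Q (g * k)) f) := by
  apply proj_eq
  · exact WW_tr hQ k g (proj_mem (WW_closed P Q _) f)
  · intro w hw
    have e : tr k f - tr k (proj (WW P Q (g * k)) f) = tr k (f - proj (WW P Q (g * k)) f) := by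
      ext x; rfl
    rw [e, inner_tr_left]
    apply proj_inner
    apply WW_tr hQ k⁻¹ (g * k)
    rwa [mul_assoc, mul_inv_cancel, mul_one]

theorem WW_eq (hP : IsCone P) {g h : G} (h1 : h * g⁻¹ ∈ P) (h2 : g * h⁻¹ ∈ P) :
    WW P Q g = WW P Q h := by
  have e1 : up P g = up P h := by
    ext x
    constructor
    · intro hx
      have := hP.mul _ hx _ h2
      change x * h⁻¹ ∈ P
      have e : x * g⁻¹ * (g * h⁻¹) = x * h⁻¹ := by group
      rwa [e] at this
    · intro hx
      have := hP.mul _ hx _ h1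
      change x * g⁻¹ ∈ P
      have e : x * h⁻¹ * (h * g⁻¹) = x * g⁻¹ := by group
      rwa [e] at this
  have e2 : up0 P g = up0 P h := by
    ext x
    constructor
    · intro hx
      have := hP.strict_mul hx h2
      change x * h⁻¹ ∈ strict P
      have e : x * g⁻¹ * (g * h⁻¹) = x * h⁻¹ := by group
      rwa [e] at this
    · intro hx
      have := hP.strict_mul hx h1
      change x * g⁻¹ ∈ strict P
      have e : x * h⁻¹ * (h * g⁻¹) = x * g⁻¹ := by group
      rwa [e] at this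
  unfold WW
  rw [e1, e2]

theorem WW_orth_aux (hP : IsCone P) {g h : G} (h1 : h * g⁻¹ ∈ strict P) {a b : EE G J}
    (ha : a ∈ WW P Q g) (hb : b ∈ WW P Q h) : ⟪b, a⟫_ℂ = 0 := by
  have h2 : b ∈ SX Q (up0 P g) := by
    refine SX_mono Q ?_ hb.1
    intro x hx
    have := hP.mul_strict hx h1
    change x * g⁻¹ ∈ strict P
    have e : x * h⁻¹ * (h * g⁻¹) = x * g⁻¹ := by group
    rwa [e] at this
  have h3 : a ∈ (SX Q (up0 P g))ᗮ := ha.2
  rw [Submodule.mem_orthogonal] at h3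
  exact h3 b h2

theorem WW_orth (hP : IsCone P) {g h : G} (hne : ¬ (h * g⁻¹ ∈ P ∧ g * h⁻¹ ∈ P)) {a b : EE G J}
    (ha : a ∈ WW P Q g) (hb : b ∈ WW P Q h) : ⟪b, a⟫_ℂ = 0 := by
  have e1 : (h * g⁻¹)⁻¹ = g * h⁻¹ := by group
  have e2 : (g * h⁻¹)⁻¹ = h * g⁻¹ := by group
  rcases hP.total (h * g⁻¹) with h1 | h1
  · apply WW_orth_aux hP ⟨h1, ?_⟩ ha hb
    rw [e1]
    exact fun h2 => hne ⟨h1, h2⟩
  · rw [e1] at h1
    rw [← inner_conj_symm, WW_orth_aux hP (g := h) (h := g) ⟨h1, ?_⟩ hb ha, map_zero]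
    rw [e2]
    exact fun h2 => hne ⟨h2, h1⟩

end

section
variable {G : Type u} {I : Type v} {J : Type w} [Group G]
variable {P : Set G} {Q : EE G J →L[ℂ] EE G J}

theorem sum_norm_sq_le {X : Type*} (f : lp (fun _ : X => ℂ) 2) (s : Finset X) :
    ∑ x ∈ s, ‖f x‖ ^ 2 ≤ ‖f‖ ^ 2 := by
  have h := lp.sum_rpow_le_norm_rpow (p := 2) (by norm_num) f s
  simp only [ENNReal.toReal_ofNat, Real.rpow_ofNat] at h
  exact h

theorem RR_bound (hP : IsCone P) (A : EE G J →L[ℂ] EE G I) (f : EE G J) (s : Finset (G × I)) :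
    ∑ x ∈ s, ‖A (proj (WW P Q x.1) f) x‖ ^ 2 ≤ (‖A‖ * ‖f‖) ^ 2 := by
  classical
  let t := s.image (fun x => WW P Q x.1)
  have h1 : ∑ x ∈ s, ‖A (proj (WW P Q x.1) f) x‖ ^ 2
      = ∑ W ∈ t, ∑ x ∈ s with WW P Q x.1 = W, ‖A (proj (WW P Q x.1) f) x‖ ^ 2 :=
    (Finset.sum_fiberwise_of_maps_to (fun x hx => Finset.mem_image_of_mem _ hx) _).symm
  rw [h1]
  have h2 : ∀ W ∈ t, ∑ x ∈ s with WW P Q x.1 = W, ‖A (proj (WW P Q x.1) f) x‖ ^ 2
      ≤ ‖A‖ ^ 2 * ‖proj W f‖ ^ 2 := by
    intro W _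
    calc ∑ x ∈ s with WW P Q x.1 = W, ‖A (proj (WW P Q x.1) f) x‖ ^ 2
        = ∑ x ∈ s with WW P Q x.1 = W, ‖A (proj W f) x‖ ^ 2 := by
          refine Finset.sum_congr rfl fun x hx => ?_
          rw [(Finset.mem_filter.1 hx).2]
      _ ≤ ‖A (proj W f)‖ ^ 2 := sum_norm_sq_le _ _
      _ ≤ (‖A‖ * ‖proj W f‖) ^ 2 := by
          gcongr
          exact A.le_opNorm _
      _ = _ := by ring
  refine (Finset.sum_le_sum h2).trans ?_
  rw [← Finset.mul_sum, mul_pow]
  have h3 : ∑ W ∈ t, ‖proj W f‖ ^ 2 ≤ ‖f‖ ^ 2 := by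
    apply bessel
    · intro a ha b hb hne
      obtain ⟨x, hx, rfl⟩ := Finset.mem_image.1 ha
      obtain ⟨y, hy, rfl⟩ := Finset.mem_image.1 hb
      refine WW_orth hP (g := y.1) (h := x.1) ?_ (proj_mem (WW_closed P Q _) f)
        (proj_mem (WW_closed P Q _) f)
      rintro ⟨h4, h5⟩
      exact hne (WW_eq hP h5 h4)
    · intro a ha
      obtain ⟨x, hx, rfl⟩ := Finset.mem_image.1 ha
      have h4 := proj_inner f _ (proj_mem (WW_closed P Q x.1) f)
      rw [inner_sub_left, sub_eq_zero] at h4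
      rw [← inner_conj_symm, h4, inner_conj_symm]
  gcongr

theorem RR_memlp (hP : IsCone P) (A : EE G J →L[ℂ] EE G I) (f : EE G J) :
    Memℓp (fun x : G × I => A (proj (WW P Q x.1) f) x) 2 := by
  rw [memlp_two_iff]
  exact summable_of_sum_le (fun _ => by positivity) (RR_bound hP A f)

/-- the operator, as a function -/
noncomputable def RRfun (hP : IsCone P) (Q : EE G J →L[ℂ] EE G J) (A : EE G J →L[ℂ] EE G I)
    (f : EE G J) : EE G I :=
  ⟨fun x => A (proj (WW P Q x.1) f) x, RR_memlp hP A f⟩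

theorem RRfun_apply (hP : IsCone P) (A : EE G J →L[ℂ] EE G I) (f : EE G J) (x : G × I) :
    RRfun hP Q A f x = A (proj (WW P Q x.1) f) x := rfl

theorem norm_RRfun_le (hP : IsCone P) (A : EE G J →L[ℂ] EE G I) (f : EE G J) :
    ‖RRfun hP Q A f‖ ≤ ‖A‖ * ‖f‖ := by
  have h1 : ‖RRfun hP Q A f‖ ^ 2 ≤ (‖A‖ * ‖f‖) ^ 2 := by
    rw [norm_sq_tsum]
    have h2 : ∀ s : Finset (G × I), ∑ x ∈ s, ‖RRfun hP Q A f x‖ ^ 2 ≤ (‖A‖ * ‖f‖) ^ 2 := by
      intro s
      refine le_trans (le_of_eq ?_) (RR_bound (Q := Q) hP A f s)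
      exact Finset.sum_congr rfl fun x _ => by rw [RRfun_apply]
    have h3 : Summable (fun x : G × I => ‖RRfun hP Q A f x‖ ^ 2) :=
      summable_of_sum_le (fun _ => by positivity) h2
    exact h3.tsum_le_of_sum_le h2
  exact (sq_le_sq₀ (norm_nonneg _) (by positivity)).1 h1

/-- the operator, as a linear map -/
noncomputable def RRlin (hP : IsCone P) (Q : EE G J →L[ℂ] EE G J) (A : EE G J →L[ℂ] EE G I) :
    EE G J →ₗ[ℂ] EE G I where
  toFun := RRfun hP Q A
  map_add' f g := by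
    ext x
    have e : (RRfun hP Q A f + RRfun hP Q A g) x = RRfun hP Q A f x + RRfun hP Q A g x := rfl
    rw [e, RRfun_apply, RRfun_apply, RRfun_apply, map_add, map_add]
    rfl
  map_smul' c f := by
    ext x
    have e : (RingHom.id ℂ c • RRfun hP Q A f) x = c • RRfun hP Q A f x := rfl
    rw [e, RRfun_apply, RRfun_apply, map_smul, map_smul]
    rfl

/-- the operator -/
noncomputable def RR (hP : IsCone P) (Q : EE G J →L[ℂ] EE G J) (A : EE G J →L[ℂ] EE G I) :
    EE G J →L[ℂ] EE G I :=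
  LinearMap.mkContinuous (RRlin hP Q A) ‖A‖ (norm_RRfun_le hP A)

theorem RR_apply (hP : IsCone P) (A : EE G J →L[ℂ] EE G I) (f : EE G J) (x : G × I) :
    RR hP Q A f x = A (proj (WW P Q x.1) f) x := rfl

theorem RR_eqv (hP : IsCone P) (hQ : Eqv Q) (A : EE G J →L[ℂ] EE G I) (hA : Eqv A) :
    Eqv (RR hP Q A) := by
  intro k f
  ext x
  rw [RR_apply, proj_WW_tr hQ, hA, tr_apply, tr_apply, RR_apply]

variable [Fintype I] [Fintype J]

/-- **The lowest part inequality.** Let `P` be a total cone in `G`, and let `A`, `B` be bounded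
operators which commute with the right translations. Suppose that the columns of `A` are supported
on `P`, and that those of `B` are the restrictions of those of `A` to `P ∩ P⁻¹`. Then the dimension
of the kernel of `A` is at most that of the kernel of `B`. -/
theorem cone_le (hP : IsCone P) (A B : EE G J →L[ℂ] EE G I) (hA : Eqv A) (hB : Eqv B)
    (h1 : ∀ (j : J) (g : G) (i : I), g ∉ P → A (dl (1, j)) (g, i) = 0)
    (h2 : ∀ (j : J) (g : G) (i : I), g ∈ P → g⁻¹ ∈ P →
      B (dl (1, j)) (g, i) = A (dl (1, j)) (g, i))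
    (h3 : ∀ (j : J) (g : G) (i : I), ¬ (g ∈ P ∧ g⁻¹ ∈ P) → B (dl (1, j)) (g, i) = 0) :
    vd (LinearMap.ker (A : EE G J →ₗ[ℂ] EE G I)) ≤ vd (LinearMap.ker (B : EE G J →ₗ[ℂ] EE G I)) := by
  classical
  set K := LinearMap.ker (A : EE G J →ₗ[ℂ] EE G I) with hK
  have hKc : IsClosed (K : Set (EE G J)) := ContinuousLinearMap.isClosed_ker A
  have hKcs : CompleteSpace K := hKc.completeSpace_coe
  have hKinv : Pool.Agent.W649.ZL.Inv K := inv_ker A hA
  have hKoinv : Pool.Agent.W649.ZL.Inv Kᗮ := by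
    intro k f hf
    rw [Submodule.mem_orthogonal] at hf ⊢
    intro u hu
    have : ⟪u, tr k f⟫_ℂ = ⟪tr k⁻¹ u, f⟫_ℂ := by rw [inner_tr_left, inv_inv]
    rw [this]
    exact hf _ (hKinv k⁻¹ u hu)
  set Q : EE G J →L[ℂ] EE G J := Kᗮ.starProjection with hQdef
  have hQ : Eqv Q := proj_tr hKoinv
  have hAQ : ∀ f, A (Q f) = A f := by
    intro f
    have h : f - Q f ∈ Kᗮᗮ := Submodule.sub_starProjection_mem_orthogonal _
    rw [Submodule.orthogonal_orthogonal] at h
    have h' : A (f - Q f) = 0 := h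
    rw [map_sub, sub_eq_zero] at h'
    exact h'.symm
  -- supports
  have hsupp : ∀ (X : Set G) (h : G) (i : I), (∀ x ∈ X, h * x⁻¹ ∉ P) → ∀ w ∈ SX Q X,
      A w (h, i) = 0 := by
    intro X h i hX w hw
    have hle : SX Q X ≤ LinearMap.ker (((evL (h, i)).comp A : EE G J →L[ℂ] ℂ) : EE G J →ₗ[ℂ] ℂ) := by
      apply SX_le
      · exact ContinuousLinearMap.isClosed_ker _
      · intro g j hg
        change evL (h, i) (A (Q (dl (g, j)))) = 0
        rw [evL_apply, hAQ, eqv_dl hA]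
        exact h1 j _ i (hX g hg)
    have := hle hw
    change evL (h, i) (A w) = 0 at this
    rwa [evL_apply] at this
  set R := RR hP Q A with hR
  have hRe : Eqv R := RR_eqv hP hQ A hA
  -- the kernel
  have hker : K ≤ LinearMap.ker (R : EE G J →ₗ[ℂ] EE G I) := by
    intro f hf
    change R f = 0
    ext x
    rw [hR, RR_apply]
    have h0 : proj (WW P Q x.1) f = 0 := by
      apply proj_eq _ _ (Submodule.zero_mem _)
      intro w hw
      rw [sub_zero]
      have hwK : w ∈ Kᗮ := by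
        have hle : SX Q (up P x.1) ≤ Kᗮ :=
          SX_le _ _ _ (Submodule.isClosed_orthogonal _)
            (fun g j _ => Submodule.starProjection_apply_mem _ _)
        exact hle hw.1
      rw [Submodule.mem_orthogonal] at hwK
      exact hwK f hf
    rw [h0, map_zero]
  -- the range
  have hrange : ∀ x : G × J, B (dl x) ∈ LinearMap.range (R : EE G J →ₗ[ℂ] EE G I) := by
    rintro ⟨g, j⟩
    set uu := Q (dl (g, j)) with huu
    set vv := proj (SX Q (up0 P g)) uu with hvv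
    have hu : uu ∈ SX Q (up P g) := SX_mem Q _ (by
      change g * g⁻¹ ∈ P
      rw [mul_inv_cancel]; exact hP.one) j
    have hv : vv ∈ SX Q (up0 P g) := proj_mem (SX_closed _ _) _
    have hw : uu - vv ∈ WW P Q g := by
      refine ⟨Submodule.sub_mem _ hu (SX_mono Q (fun x hx => hx.1) hv), ?_⟩
      change uu - vv ∈ (SX Q (up0 P g))ᗮ
      rw [Submodule.mem_orthogonal]
      intro y hy
      rw [← inner_conj_symm, proj_inner uu y hy, map_zero]
    refine ⟨uu - vv, ?_⟩
    change R (uu - vv) = B (dl (g, j))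
    ext ⟨h, i⟩
    rw [hR, RR_apply, eqv_dl hB]
    change A (proj (WW P Q h) (uu - vv)) (h, i) = _
    have einv : (h * g⁻¹)⁻¹ = g * h⁻¹ := by group
    by_cases hc : h * g⁻¹ ∈ P ∧ g * h⁻¹ ∈ P
    · have e1 : proj (WW P Q h) (uu - vv) = uu - vv := by
        rw [← WW_eq hP hc.1 hc.2]
        apply proj_eq _ _ hw
        intro w _
        rw [sub_self, inner_zero_left]
      rw [e1, map_sub]
      have e2 : A vv (h, i) = 0 := by
        apply hsupp _ h i _ vv hv
        intro x hx hcon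
        -- `x > g`, `h ≥ x`, `g ≥ h`
        have hx' : x * g⁻¹ ∈ strict P := hx
        apply hx'.2
        have := hP.mul _ hc.2 _ hcon
        have e : g * h⁻¹ * (h * x⁻¹) = (x * g⁻¹)⁻¹ := by group
        rwa [e] at this
      have e3 : (A uu - A vv) (h, i) = A uu (h, i) - A vv (h, i) := rfl
      rw [e3, e2, sub_zero, huu, hAQ, eqv_dl hA, h2 j _ i hc.1 (by rw [einv]; exact hc.2)]
    · have e1 : proj (WW P Q h) (uu - vv) = 0 := by
        apply proj_eq _ _ (Submodule.zero_mem _)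
        intro w hw'
        rw [sub_zero]
        apply WW_orth hP (g := h) (h := g) _ hw' hw
        rintro ⟨h4, h5⟩
        exact hc ⟨h5, h4⟩
      rw [e1, map_zero, h3 j _ i (by rw [einv]; exact hc)]
      rfl
  have hcl : LinearMap.range (B : EE G J →ₗ[ℂ] EE G I)
      ≤ (LinearMap.range (R : EE G J →ₗ[ℂ] EE G I)).topologicalClosure := by
    have htop : (LinearMap.range (R : EE G J →ₗ[ℂ] EE G I)).topologicalClosure.comap
        (B : EE G J →ₗ[ℂ] EE G I) = ⊤ := by
      apply eq_top_of_dl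
      · exact (Submodule.isClosed_topologicalClosure _).preimage B.continuous
      · intro x
        exact Submodule.le_topologicalClosure _ (hrange x)
    rintro y ⟨f, rfl⟩
    have : f ∈ (LinearMap.range (R : EE G J →ₗ[ℂ] EE G I)).topologicalClosure.comap
        (B : EE G J →ₗ[ℂ] EE G I) := by rw [htop]; trivial
    exact this
  have a1 := ker_add_range R hRe
  have a2 := ker_add_range B hB
  have a3 : vd (LinearMap.range (B : EE G J →ₗ[ℂ] EE G I))
      ≤ vd (LinearMap.range (R : EE G J →ₗ[ℂ] EE G I)) := by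
    rw [← vd_closure (LinearMap.range (R : EE G J →ₗ[ℂ] EE G I))]
    exact vd_mono hcl
  have a4 := vd_mono hker
  linarith

end

end Pool.Agent.N309.LO
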