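import Pool.Agent.N309.LO.Gap

set_option autoImplicit false
set_option linter.unusedSectionVars false

open scoped InnerProductSpace InnerProduct ENNReal

/-! Invariant kernels on free `G`-sets. -/

namespace Pool.Agent.N309.LO

open Pool.Agent.W649.ZL

universe u v w z y

section free
variable (G : Type u) [Group G] (S : Type v) [MulAction G S]

/-- the action is free -/
def FreeOn : Prop := ∀ (g : G) (s : S), g • s = s → g = 1

/-- the orbits -/
abbrev Orb := MulAction.orbitRel.Quotient G S

variable {G S}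

/-- a representative -/
noncomputable def rep (j : Orb G S) : S := Quotient.out j

theorem mk_rep (j : Orb G S) : (Quotient.mk _ (rep j) : Orb G S) = j := Quotient.out_eq j

/-- coordinates for a free action with `g` acting by right multiplication with `g⁻¹` -/
noncomputable def crd (hf : FreeOn G S) : G × Orb G S ≃ S :=
  Equiv.ofBijective (fun x => x.1⁻¹ • rep x.2) (by
    constructor
    · rintro ⟨x, i⟩ ⟨y, j⟩ h
      have h' : x⁻¹ • rep i = y⁻¹ • rep j := h
      have hij : i = j := by
        rw [← mk_rep i, ← mk_rep j]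
        apply Quotient.sound
        refine ⟨x * y⁻¹, ?_⟩
        change (x * y⁻¹) • rep j = rep i
        rw [mul_smul, ← h', smul_inv_smul]
      subst hij
      have h1 : (y * x⁻¹) • rep i = rep i := by rw [mul_smul, h', smul_inv_smul]
      have h2 := hf _ _ h1
      rw [mul_inv_eq_one] at h2
      rw [h2]
    · intro s
      have h1 : (Quotient.mk _ (rep (Quotient.mk _ s : Orb G S)) : Orb G S) = Quotient.mk _ s :=
        mk_rep _
      obtain ⟨g, hg⟩ := Quotient.exact h1
      have hg' : g • s = rep (Quotient.mk _ s : Orb G S) := hg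
      exact ⟨(g, Quotient.mk _ s), by
        change g⁻¹ • rep (Quotient.mk _ s : Orb G S) = s
        rw [← hg', inv_smul_smul]⟩)

theorem crd_apply (hf : FreeOn G S) (x : G) (j : Orb G S) : crd hf (x, j) = x⁻¹ • rep j := rfl

theorem crd_mul (hf : FreeOn G S) (x g : G) (j : Orb G S) :
    crd hf (x * g⁻¹, j) = g • crd hf (x, j) := by
  rw [crd_apply, crd_apply, mul_inv_rev, inv_inv, mul_smul]

end free

section op
variable {G : Type u} [Group G] {S : Type v} {T : Type w} [MulAction G S] [MulAction G T]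
  (hS : FreeOn G S) (hT : FreeOn G T) [Fintype (Orb G S)] [Fintype (Orb G T)]
  [DecidableEq (Orb G S)] [DecidableEq (Orb G T)]

/-- the operator of an invariant kernel -/
noncomputable def kop (m : S → T → ℂ) (fc : S → Finset T) : EE G (Orb G S) →L[ℂ] EE G (Orb G T) :=
  ∑ j : Orb G S, ∑ τ ∈ fc (rep j), m (rep j) τ •
    elem ((crd hT).symm τ).1 ((crd hT).symm τ).2 j

theorem sum_apply' {K : Type*} {L : Type*} {α : Type*} (s : Finset α)
    (f : α → EE G K →L[ℂ] EE G L) (F : EE G K) : (∑ i ∈ s, f i) F = ∑ i ∈ s, f i F := by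
  classical
  induction s using Finset.induction_on with
  | empty => simp
  | insert a s ha ih =>
    rw [Finset.sum_insert ha, Finset.sum_insert ha, ← ih]
    rfl

theorem kop_eqv (m : S → T → ℂ) (fc : S → Finset T) : Eqv (kop hT m fc) := by
  intro k F
  unfold kop
  rw [sum_apply', sum_apply']
  ext x
  rw [tr_apply, sum_apply_EE, sum_apply_EE]
  refine Finset.sum_congr rfl fun j _ => ?_
  rw [sum_apply', sum_apply', sum_apply_EE, sum_apply_EE]
  refine Finset.sum_congr rfl fun τ _ => ?_
  change m (rep j) τ * elem ((crd hT).symm τ).1 ((crd hT).symm τ).2 j (tr k F) x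
    = m (rep j) τ * elem ((crd hT).symm τ).1 ((crd hT).symm τ).2 j F (x.1 * k, x.2)
  rw [elem_eqv]
  rfl

theorem kop_dl_one (m : S → T → ℂ) (fc : S → Finset T) (hfc : ∀ σ τ, m σ τ ≠ 0 → τ ∈ fc σ)
    (j : Orb G S) (y : G × Orb G T) :
    kop hT m fc (dl ((1 : G), j)) y = m (rep j) (crd hT y) := by
  classical
  unfold kop
  rw [sum_apply', sum_apply_EE, Finset.sum_eq_single j]
  · rw [sum_apply', sum_apply_EE]
    have h1 : ∀ τ : T, (m (rep j) τ • elem ((crd hT).symm τ).1 ((crd hT).symm τ).2 j)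
        (dl ((1 : G), j)) y = if τ = crd hT y then m (rep j) (crd hT y) else 0 := by
      intro τ
      change m (rep j) τ * elem ((crd hT).symm τ).1 ((crd hT).symm τ).2 j (dl ((1 : G), j)) y = _
      rw [elem_apply]
      by_cases h : τ = crd hT y
      · rw [if_pos h, h, Equiv.symm_apply_apply, if_pos rfl, inv_mul_cancel, dl_apply_self, mul_one]
      · rw [if_neg h]
        by_cases h2 : y.2 = ((crd hT).symm τ).2
        · rw [if_pos h2, dl_apply_ne, mul_zero]
          intro h3
          apply h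
          have h4 : (((crd hT).symm τ).1)⁻¹ * y.1 = 1 := congrArg Prod.fst h3
          have h5 : y = (crd hT).symm τ := Prod.ext (inv_mul_eq_one.1 h4).symm h2
          rw [h5, Equiv.apply_symm_apply]
        · rw [if_neg h2, mul_zero]
    rw [Finset.sum_congr rfl fun τ _ => h1 τ, Finset.sum_ite_eq']
    by_cases h : crd hT y ∈ fc (rep j)
    · rw [if_pos h]
    · rw [if_neg h]
      by_contra h2
      exact h (hfc _ _ (fun h3 => h2 h3.symm))
  · intro j' _ hj'
    rw [sum_apply', sum_apply_EE]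
    apply Finset.sum_eq_zero
    intro τ _
    change m (rep j') τ * elem ((crd hT).symm τ).1 ((crd hT).symm τ).2 j' (dl ((1 : G), j)) y = 0
    rw [elem_apply]
    by_cases h2 : y.2 = ((crd hT).symm τ).2
    · rw [if_pos h2, dl_apply_ne, mul_zero]
      intro h3
      exact hj' (congrArg Prod.snd h3)
    · rw [if_neg h2, mul_zero]
  · intro h
    exact absurd (Finset.mem_univ j) h

theorem kop_dl (m : S → T → ℂ) (hm : ∀ (g : G) σ τ, m (g • σ) (g • τ) = m σ τ)
    (fc : S → Finset T) (hfc : ∀ σ τ, m σ τ ≠ 0 → τ ∈ fc σ) (x : G × Orb G S) (y : G × Orb G T) :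
    kop hT m fc (dl x) y = m (crd hS x) (crd hT y) := by
  obtain ⟨g, j⟩ := x
  obtain ⟨t, i⟩ := y
  rw [eqv_dl (kop_eqv hT m fc), kop_dl_one hT m fc hfc, crd_mul, crd_apply hS]
  have h := hm g (g⁻¹ • rep j) (crd hT (t, i))
  rw [smul_inv_smul] at h
  exact h

/-- the value of `kop` -/
theorem kop_apply (m : S → T → ℂ) (hm : ∀ (g : G) σ τ, m (g • σ) (g • τ) = m σ τ)
    (fc : S → Finset T) (hfc : ∀ σ τ, m σ τ ≠ 0 → τ ∈ fc σ)
    (cf : T → Finset S) (hcf : ∀ σ τ, m σ τ ≠ 0 → σ ∈ cf τ) (F : EE G (Orb G S))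
    (y : G × Orb G T) :
    kop hT m fc F y = ∑ σ ∈ cf (crd hT y), m σ (crd hT y) * F ((crd hS).symm σ) := by
  classical
  let φ : EE G (Orb G S) →L[ℂ] ℂ := (evL y).comp (kop hT m fc)
    - ∑ σ ∈ cf (crd hT y), m σ (crd hT y) • evL ((crd hS).symm σ)
  have hφ : ∀ F, φ F = kop hT m fc F y
      - ∑ σ ∈ cf (crd hT y), m σ (crd hT y) * F ((crd hS).symm σ) := by
    intro F
    change evL y (kop hT m fc F)
      - (∑ σ ∈ cf (crd hT y), m σ (crd hT y) • evL ((crd hS).symm σ)) F = _
    rw [evL_apply, sum_apply]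
    congr 1
    refine Finset.sum_congr rfl fun σ _ => ?_
    change m σ (crd hT y) * evL ((crd hS).symm σ) F = _
    rw [evL_apply]
  have htop : LinearMap.ker (φ : EE G (Orb G S) →ₗ[ℂ] ℂ) = ⊤ := by
    apply eq_top_of_dl _ (ContinuousLinearMap.isClosed_ker φ)
    intro x
    change φ (dl x) = 0
    rw [hφ, kop_dl hS hT m hm fc hfc, sub_eq_zero]
    have h1 : ∀ σ ∈ cf (crd hT y), m σ (crd hT y) * (dl x : EE G (Orb G S)) ((crd hS).symm σ)
        = if σ = crd hS x then m (crd hS x) (crd hT y) else 0 := by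
      intro σ _
      by_cases h : σ = crd hS x
      · rw [if_pos h, h, Equiv.symm_apply_apply, dl_apply_self, mul_one]
      · rw [if_neg h, dl_apply_ne, mul_zero]
        intro h2
        apply h
        rw [← h2, Equiv.apply_symm_apply]
    rw [Finset.sum_congr rfl h1, Finset.sum_ite_eq']
    by_cases h : crd hS x ∈ cf (crd hT y)
    · rw [if_pos h]
    · rw [if_neg h]
      by_contra h2
      exact h (hcf _ _ h2)
  have h1 : φ F = 0 := by
    have : F ∈ LinearMap.ker (φ : EE G (Orb G S) →ₗ[ℂ] ℂ) := by rw [htop]; trivial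
    exact this
  rw [hφ, sub_eq_zero] at h1
  exact h1

/-- inner products with the images of basis vectors -/
theorem kop_inner (m : S → T → ℂ) (hm : ∀ (g : G) σ τ, m (g • σ) (g • τ) = m σ τ)
    (fc : S → Finset T) (hfc : ∀ σ τ, m σ τ ≠ 0 → τ ∈ fc σ) (x : G × Orb G S)
    (F : EE G (Orb G T)) :
    ⟪kop hT m fc (dl x), F⟫_ℂ
      = ∑ τ ∈ fc (crd hS x), (starRingEnd ℂ) (m (crd hS x) τ) * F ((crd hT).symm τ) := by
  classical
  have h1 : kop hT m fc (dl x) = ∑ τ ∈ fc (crd hS x), m (crd hS x) τ • dl ((crd hT).symm τ) := by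
    ext y
    rw [kop_dl hS hT m hm fc hfc, sum_apply_EE]
    have h2 : ∀ τ ∈ fc (crd hS x), (m (crd hS x) τ • (dl ((crd hT).symm τ) : EE G (Orb G T))) y
        = if τ = crd hT y then m (crd hS x) (crd hT y) else 0 := by
      intro τ _
      change m (crd hS x) τ * (dl ((crd hT).symm τ) : EE G (Orb G T)) y = _
      by_cases h : τ = crd hT y
      · rw [if_pos h, h, Equiv.symm_apply_apply, dl_apply_self, mul_one]
      · rw [if_neg h, dl_apply_ne, mul_zero]
        intro h3
        apply h
        rw [h3, Equiv.apply_symm_apply]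
    rw [Finset.sum_congr rfl h2, Finset.sum_ite_eq']
    by_cases h : crd hT y ∈ fc (crd hS x)
    · rw [if_pos h]
    · rw [if_neg h]
      by_contra h3
      exact h (hfc _ _ h3)
  rw [h1, sum_inner]
  refine Finset.sum_congr rfl fun τ _ => ?_
  rw [inner_smul_left, inner_dl_left]

end op

end Pool.Agent.N309.LO
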