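import Pool.Agent.N309.LO.CentMat

set_option autoImplicit false
set_option linter.unusedSectionVars false

open scoped InnerProductSpace InnerProduct ENNReal

/-! A gap for finite subgroups with an invariant order of the cosets. -/

namespace Pool.Agent.N309.LO

open Pool.Agent.W649.ZL

universe u v w z y

section
variable {G : Type u} [Group G] {K : Type w} {L : Type z} [Fintype K] [Fintype L]
  [DecidableEq K] [DecidableEq L]

/-- A closed invariant subspace which contains a vector with small support is not too small. -/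
theorem one_le_vd (P : Submodule ℂ (EE G K)) (hP : Pool.Agent.W649.ZL.Inv P) (v : EE G K)
    (hv : v ∈ P) (hne : v ≠ 0) (s : Finset G) (hs : ∀ x : G × K, v x ≠ 0 → x.1 ∈ s) :
    1 ≤ s.card * vd P := by
  classical
  have hQ := Inv.topologicalClosure hP
  have hvQ : v ∈ P.topologicalClosure := Submodule.le_topologicalClosure P hv
  have hpv : P.topologicalClosure.starProjection v = v :=
    Submodule.starProjection_eq_self_iff.2 hvQ
  have h1 : ∀ x : G × K, ‖v x‖ ^ 2
      ≤ ‖P.topologicalClosure.starProjection (dl ((1 : G), x.2))‖ ^ 2 * ‖v‖ ^ 2 := by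
    rintro ⟨g, k⟩
    have e1 : v (g, k) = ⟪P.topologicalClosure.starProjection (dl (g, k)), v⟫_ℂ := by
      rw [Submodule.inner_starProjection_left_eq_right, hpv, inner_dl_left]
    have e2 : ‖P.topologicalClosure.starProjection (dl (g, k))‖
        = ‖P.topologicalClosure.starProjection (dl ((1 : G), k))‖ := by
      rw [dl_eq_tr, proj_tr hQ, norm_tr]
    have e3 : ‖v (g, k)‖ ≤ ‖P.topologicalClosure.starProjection (dl ((1 : G), k))‖ * ‖v‖ := by
      rw [e1, ← e2]
      exact norm_inner_le_norm _ _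
    have e4 := mul_self_le_mul_self (norm_nonneg _) e3
    calc ‖v (g, k)‖ ^ 2 = ‖v (g, k)‖ * ‖v (g, k)‖ := sq _
      _ ≤ _ := e4
      _ = _ := by ring
  have h2 : ‖v‖ ^ 2 = ∑ x ∈ s ×ˢ (Finset.univ : Finset K), ‖v x‖ ^ 2 := by
    rw [norm_sq_tsum]
    apply tsum_eq_sum
    intro x hx
    by_contra h3
    apply hx
    rw [Finset.mem_product]
    refine ⟨hs x ?_, Finset.mem_univ _⟩
    intro h4
    apply h3
    rw [h4, norm_zero]
    norm_num
  have h3 : ‖v‖ ^ 2 ≤ s.card * vd P * ‖v‖ ^ 2 := by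
    calc ‖v‖ ^ 2 = ∑ x ∈ s ×ˢ (Finset.univ : Finset K), ‖v x‖ ^ 2 := h2
      _ ≤ ∑ x ∈ s ×ˢ (Finset.univ : Finset K),
        ‖P.topologicalClosure.starProjection (dl ((1 : G), x.2))‖ ^ 2 * ‖v‖ ^ 2 :=
          Finset.sum_le_sum fun x _ => h1 x
      _ = s.card * vd P * ‖v‖ ^ 2 := by
        rw [Finset.sum_product]
        change ∑ _x ∈ s, ∑ y : K,
          ‖P.topologicalClosure.starProjection (dl ((1 : G), y))‖ ^ 2 * ‖v‖ ^ 2 = _
        rw [Finset.sum_const, nsmul_eq_mul, ← Finset.sum_mul, ← mul_assoc]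
        rfl
  have h4 : 0 < ‖v‖ ^ 2 := by
    have := norm_pos_iff.2 hne
    positivity
  have h5 : 1 * ‖v‖ ^ 2 ≤ s.card * vd P * ‖v‖ ^ 2 := by rwa [one_mul]
  exact le_of_mul_le_mul_right h5 h4

theorem opT_dl (T : Finset G) (A : K → L → (G →₀ ℂ)) (hT : ∀ k j, (A k j).support ⊆ T) (k : K)
    (t : G) (j : L) : opT T A (dl ((1 : G), k)) (t, j) = A k j t⁻¹ := by
  have h := lin_famR_dl (fun i : T × K × L => (i.1 : G)) (fun i => i.2.1) (fun i => i.2.2)
    (coefT T A) k t j
  rw [matM_coefT T A hT] at h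
  exact h

theorem gap {X : Type y} [MulAction G X] [LinearOrder X] (hX : OrdInv G X) (N : Subgroup G)
    [Finite N] (b : X) (hstab : ∀ g : G, g • b = b ↔ g ∈ N) (A : K → L → (G →₀ ℂ))
    (hA : ∃ k j, A k j ≠ 0) : kerDimM A ≤ (Fintype.card K : ℝ) - 1 / Nat.card N := by
  classical
  have hr : ∀ k : K, ∃ r : X, (∀ j, ∀ h ∈ (A k j).support, h • b ≤ r) ∧
      ((∃ j, A k j ≠ 0) → ∃ j, ∃ h ∈ (A k j).support, h • b = r) := by
    intro k
    let W : Finset X := Finset.univ.biUnion (fun j : L => (A k j).support.image (fun h => h • b))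
    by_cases hW : W.Nonempty
    · refine ⟨W.max' hW, ?_, ?_⟩
      · intro j h hh
        apply Finset.le_max'
        exact Finset.mem_biUnion.2 ⟨j, Finset.mem_univ _, Finset.mem_image_of_mem _ hh⟩
      · intro _
        obtain ⟨j, _, hj⟩ := Finset.mem_biUnion.1 (W.max'_mem hW)
        obtain ⟨h, hh, he⟩ := Finset.mem_image.1 hj
        exact ⟨j, h, hh, he⟩
    · have hemp : ∀ j, ∀ h ∈ (A k j).support, False := by
        intro j h hh
        exact hW ⟨h • b, Finset.mem_biUnion.2 ⟨j, Finset.mem_univ _,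
          Finset.mem_image_of_mem _ hh⟩⟩
      refine ⟨b, fun j h hh => (hemp j h hh).elim, ?_⟩
      rintro ⟨j, hj⟩
      obtain ⟨h, hh⟩ := Finsupp.support_nonempty_iff.2 hj
      exact (hemp j h hh).elim
  choose r hr1 hr2 using hr
  obtain ⟨k₀, j₀, hkj⟩ := hA
  obtain ⟨j₁, h₁, hh₁, he₁⟩ := hr2 k₀ ⟨j₀, hkj⟩
  let B : K → L → (G →₀ ℂ) := fun k j => (A k j).filter (fun h => h • b = r k)
  have hle : kerDimM A ≤ kerDimM B := by
    apply mat_le hX r (fun _ => b) A B (fun k j h hh => hr1 k j h hh)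
    · intro k j h hh
      exact Finsupp.filter_apply_pos (fun h => h • b = r k) (A k j) hh
    · intro k j h hh
      exact Finsupp.filter_apply_neg (fun h => h • b = r k) (A k j) hh
  obtain ⟨T, hT⟩ := exists_T B
  have hvd : kerDimM B = vd (LinearMap.ker (opT T B : EE G K →ₗ[ℂ] EE G L)) :=
    kerDimM_eq_vd T B hT
  have hkr := ker_add_range (opT T B) (opT_eqv T B)
  have hNf : Fintype N := Fintype.ofFinite N
  let s : Finset G := Finset.univ.image (fun n : N => (h₁ * (n : G))⁻¹)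
  have hv := one_le_vd (LinearMap.range (opT T B : EE G K →ₗ[ℂ] EE G L)) (by
      rintro k _ ⟨F, rfl⟩
      exact ⟨tr k F, (opT_eqv T B) k F⟩) (opT T B (dl ((1 : G), k₀))) ⟨_, rfl⟩ (by
      intro h0
      have h1 := opT_dl T B hT k₀ h₁⁻¹ j₁
      rw [h0, inv_inv] at h1
      have h2 : B k₀ j₁ h₁ = A k₀ j₁ h₁ :=
        Finsupp.filter_apply_pos (fun h => h • b = r k₀) (A k₀ j₁) he₁
      rw [h2] at h1
      exact (Finsupp.mem_support_iff.1 hh₁) h1.symm) s (by
      rintro ⟨t, j⟩ hne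
      rw [opT_dl T B hT] at hne
      have h1 : t⁻¹ • b = r k₀ := by
        by_contra h2
        exact hne (Finsupp.filter_apply_neg (fun h => h • b = r k₀) (A k₀ j) h2)
      rw [← he₁] at h1
      have h3 : (h₁⁻¹ * t⁻¹) • b = b := by rw [mul_smul, h1, inv_smul_smul]
      have h4 := (hstab _).1 h3
      refine Finset.mem_image.2 ⟨⟨_, h4⟩, Finset.mem_univ _, ?_⟩
      change (h₁ * (h₁⁻¹ * t⁻¹))⁻¹ = t
      rw [mul_inv_cancel_left, inv_inv])
  have hsc : (s.card : ℝ) ≤ Nat.card N := by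
    rw [Nat.card_eq_fintype_card]
    exact_mod_cast Finset.card_image_le
  have hpos : (0 : ℝ) < Nat.card N := by
    exact_mod_cast Nat.card_pos
  have hnn : 0 ≤ vd (LinearMap.range (opT T B : EE G K →ₗ[ℂ] EE G L)) := vd_nonneg _
  have h6 : 1 / (Nat.card N : ℝ) ≤ vd (LinearMap.range (opT T B : EE G K →ₗ[ℂ] EE G L)) := by
    rw [div_le_iff₀ hpos]
    calc (1 : ℝ) ≤ s.card * vd (LinearMap.range (opT T B : EE G K →ₗ[ℂ] EE G L)) := hv
      _ ≤ Nat.card N * vd (LinearMap.range (opT T B : EE G K →ₗ[ℂ] EE G L)) :=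
        mul_le_mul_of_nonneg_right hsc hnn
      _ = _ := mul_comm _ _
  rw [← hvd] at hkr
  linarith

end

end Pool.Agent.N309.LO
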