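import Pool.Agent.N309.LO.Core

set_option autoImplicit false
set_option linter.unusedSectionVars false

open scoped InnerProductSpace InnerProduct ENNReal

/-! The inequality for operators which do not raise the levels in a totally ordered `G`-set. -/

namespace Pool.Agent.N309.LO

open Pool.Agent.W649.ZL

universe u v w z

/-- the order of `X` is invariant under `G` -/
def OrdInv (G : Type u) (X : Type z) [Group G] [MulAction G X] [LinearOrder X] : Prop :=
  ∀ (g : G) (a b : X), a ≤ b → g • a ≤ g • b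

section
variable {G : Type u} {I : Type v} {J : Type w} {X : Type z} [Group G] [MulAction G X]
variable [LinearOrder X]

theorem OrdInv.lt (hX : OrdInv G X) (g : G) {a b : X} (h : a < b) : g • a < g • b := by
  refine lt_of_le_of_ne (hX g a b h.le) ?_
  intro he
  exact h.ne (MulAction.injective g he)

/-- the closure of the span of the projections of the basis vectors satisfying `S` -/
noncomputable def SS (Q : EE G J →L[ℂ] EE G J) (S : G × J → Prop) : Submodule ℂ (EE G J) :=
  (Submodule.span ℂ {f | ∃ x, S x ∧ f = Q (dl x)}).topologicalClosure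

theorem SS_mem (Q : EE G J →L[ℂ] EE G J) (S : G × J → Prop) {x : G × J} (hx : S x) :
    Q (dl x) ∈ SS Q S :=
  Submodule.le_topologicalClosure _ (Submodule.subset_span ⟨x, hx, rfl⟩)

theorem SS_closed (Q : EE G J →L[ℂ] EE G J) (S : G × J → Prop) :
    IsClosed (SS Q S : Set (EE G J)) :=
  Submodule.isClosed_topologicalClosure _

theorem SS_le (Q : EE G J →L[ℂ] EE G J) (S : G × J → Prop) (M : Submodule ℂ (EE G J))
    (hM : IsClosed (M : Set (EE G J))) (h : ∀ x, S x → Q (dl x) ∈ M) : SS Q S ≤ M := by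
  apply Submodule.topologicalClosure_minimal _ _ hM
  rw [Submodule.span_le]
  rintro f ⟨x, hx, rfl⟩
  exact h x hx

theorem SS_mono (Q : EE G J →L[ℂ] EE G J) {S T : G × J → Prop} (h : ∀ x, S x → T x) :
    SS Q S ≤ SS Q T :=
  SS_le Q S _ (SS_closed Q T) fun x hx => SS_mem Q T (h x hx)

theorem SS_tr {Q : EE G J →L[ℂ] EE G J} (hQ : Eqv Q) (k : G) {S T : G × J → Prop}
    (h : ∀ x : G × J, S x → T (x.1 * k⁻¹, x.2)) {f : EE G J} (hf : f ∈ SS Q S) :
    tr k f ∈ SS Q T := by
  have hle : SS Q S ≤ (SS Q T).comap ((trL k : EE G J →L[ℂ] EE G J) : EE G J →ₗ[ℂ] EE G J) := by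
    apply SS_le
    · exact (SS_closed Q T).preimage (trL (J := J) k).continuous
    · rintro ⟨g, j⟩ hg
      change tr k (Q (dl (g, j))) ∈ SS Q T
      rw [← hQ, tr_dl]
      exact SS_mem Q T (h _ hg)
  exact hle hf

variable (w : J → X) (Q : EE G J →L[ℂ] EE G J)

/-- the level of a basis vector is at most `y` -/
def lowP (y : X) (x : G × J) : Prop := x.1⁻¹ • w x.2 ≤ y

/-- the level of a basis vector is less than `y` -/
def lowP0 (y : X) (x : G × J) : Prop := x.1⁻¹ • w x.2 < y

/-- the wandering subspace of the level `y` -/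
noncomputable def WL (y : X) : Submodule ℂ (EE G J) := SS Q (lowP w y) ⊓ (SS Q (lowP0 w y))ᗮ

theorem WL_closed (y : X) : IsClosed (WL w Q y : Set (EE G J)) := by
  unfold WL
  rw [Submodule.coe_inf]
  exact (SS_closed _ _).inter (Submodule.isClosed_orthogonal _)

variable {w Q}

theorem WL_tr (hX : OrdInv G X) (hQ : Eqv Q) (k : G) (y : X) {f : EE G J} (hf : f ∈ WL w Q y) :
    tr k f ∈ WL w Q (k • y) := by
  refine ⟨SS_tr hQ k ?_ hf.1, ?_⟩
  · rintro ⟨x, j⟩ hx
    change (x * k⁻¹)⁻¹ • w j ≤ k • y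
    have h1 : x⁻¹ • w j ≤ y := hx
    rw [mul_inv_rev, inv_inv, mul_smul]
    exact hX k _ _ h1
  · change tr k f ∈ (SS Q (lowP0 w (k • y)))ᗮ
    rw [Submodule.mem_orthogonal]
    intro v hv
    have h1 : ⟪v, tr k f⟫_ℂ = ⟪tr k⁻¹ v, f⟫_ℂ := by
      rw [inner_tr_left, inv_inv]
    rw [h1]
    have h2 : f ∈ (SS Q (lowP0 w y))ᗮ := hf.2
    rw [Submodule.mem_orthogonal] at h2
    apply h2
    refine SS_tr hQ k⁻¹ ?_ hv
    rintro ⟨x, j⟩ hx
    change (x * k⁻¹⁻¹)⁻¹ • w j < y
    have h3 : x⁻¹ • w j < k • y := hx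
    have h4 := hX.lt k⁻¹ h3
    rw [inv_smul_smul, smul_smul, ← mul_inv_rev] at h4
    rw [inv_inv]
    exact h4

theorem proj_WL_tr (hX : OrdInv G X) (hQ : Eqv Q) (k : G) (y : X) (f : EE G J) :
    proj (WL w Q (k • y)) (tr k f) = tr k (proj (WL w Q y) f) := by
  apply proj_eq
  · exact WL_tr hX hQ k y (proj_mem (WL_closed w Q _) f)
  · intro v hv
    have e : tr k f - tr k (proj (WL w Q y) f) = tr k (f - proj (WL w Q y) f) := by
      ext x; rfl
    rw [e, inner_tr_left]
    apply proj_inner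
    have h := WL_tr hX hQ k⁻¹ (k • y) hv
    rwa [inv_smul_smul] at h

theorem WL_orth_aux {y z : X} (h : y < z) {a b : EE G J} (ha : a ∈ WL w Q z)
    (hb : b ∈ WL w Q y) : ⟪b, a⟫_ℂ = 0 := by
  have h2 : b ∈ SS Q (lowP0 w z) := by
    refine SS_mono Q ?_ hb.1
    intro x hx
    exact lt_of_le_of_lt hx h
  have h3 : a ∈ (SS Q (lowP0 w z))ᗮ := ha.2
  rw [Submodule.mem_orthogonal] at h3
  exact h3 b h2

theorem WL_orth {y z : X} (h : y ≠ z) {a b : EE G J} (ha : a ∈ WL w Q z) (hb : b ∈ WL w Q y) :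
    ⟪b, a⟫_ℂ = 0 := by
  rcases lt_or_gt_of_ne h with h1 | h1
  · exact WL_orth_aux h1 ha hb
  · rw [← inner_conj_symm, WL_orth_aux h1 hb ha, map_zero]

variable (u : I → X)

/-- the level of a basis vector -/
def lev (x : G × I) : X := x.1⁻¹ • u x.2

variable {u}

theorem RL_bound (A : EE G J →L[ℂ] EE G I) (f : EE G J) (s : Finset (G × I)) :
    ∑ x ∈ s, ‖A (proj (WL w Q (lev u x)) f) x‖ ^ 2 ≤ (‖A‖ * ‖f‖) ^ 2 := by
  classical
  let t := s.image (fun x => lev u x)
  have h1 : ∑ x ∈ s, ‖A (proj (WL w Q (lev u x)) f) x‖ ^ 2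
      = ∑ y ∈ t, ∑ x ∈ s with lev u x = y, ‖A (proj (WL w Q (lev u x)) f) x‖ ^ 2 :=
    (Finset.sum_fiberwise_of_maps_to (fun x hx => Finset.mem_image_of_mem _ hx) _).symm
  rw [h1]
  have h2 : ∀ y ∈ t, ∑ x ∈ s with lev u x = y, ‖A (proj (WL w Q (lev u x)) f) x‖ ^ 2
      ≤ ‖A‖ ^ 2 * ‖proj (WL w Q y) f‖ ^ 2 := by
    intro y _
    calc ∑ x ∈ s with lev u x = y, ‖A (proj (WL w Q (lev u x)) f) x‖ ^ 2
        = ∑ x ∈ s with lev u x = y, ‖A (proj (WL w Q y) f) x‖ ^ 2 := by
          refine Finset.sum_congr rfl fun x hx => ?_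
          rw [(Finset.mem_filter.1 hx).2]
      _ ≤ ‖A (proj (WL w Q y) f)‖ ^ 2 := sum_norm_sq_le _ _
      _ ≤ (‖A‖ * ‖proj (WL w Q y) f‖) ^ 2 := by
          gcongr
          exact A.le_opNorm _
      _ = _ := by ring
  refine (Finset.sum_le_sum h2).trans ?_
  rw [← Finset.mul_sum, mul_pow]
  have h3 : ∑ y ∈ t, ‖proj (WL w Q y) f‖ ^ 2 ≤ ‖f‖ ^ 2 := by
    apply bessel
    · intro a _ b _ hne
      exact WL_orth hne (proj_mem (WL_closed w Q _) f) (proj_mem (WL_closed w Q _) f)
    · intro a _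
      have h4 := proj_inner f _ (proj_mem (WL_closed w Q a) f)
      rw [inner_sub_left, sub_eq_zero] at h4
      rw [← inner_conj_symm, h4, inner_conj_symm]
  gcongr

theorem RL_memlp (A : EE G J →L[ℂ] EE G I) (f : EE G J) :
    Memℓp (fun x : G × I => A (proj (WL w Q (lev u x)) f) x) 2 := by
  rw [memlp_two_iff]
  exact summable_of_sum_le (fun _ => by positivity) (RL_bound A f)

/-- the operator, as a function -/
noncomputable def RLfun (w : J → X) (u : I → X) (Q : EE G J →L[ℂ] EE G J)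
    (A : EE G J →L[ℂ] EE G I) (f : EE G J) : EE G I :=
  ⟨fun x => A (proj (WL w Q (lev u x)) f) x, RL_memlp A f⟩

theorem RLfun_apply (A : EE G J →L[ℂ] EE G I) (f : EE G J) (x : G × I) :
    RLfun w u Q A f x = A (proj (WL w Q (lev u x)) f) x := rfl

theorem norm_RLfun_le (A : EE G J →L[ℂ] EE G I) (f : EE G J) :
    ‖RLfun w u Q A f‖ ≤ ‖A‖ * ‖f‖ := by
  have h1 : ‖RLfun w u Q A f‖ ^ 2 ≤ (‖A‖ * ‖f‖) ^ 2 := by
    rw [norm_sq_tsum]
    have h2 : ∀ s : Finset (G × I), ∑ x ∈ s, ‖RLfun w u Q A f x‖ ^ 2 ≤ (‖A‖ * ‖f‖) ^ 2 := by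
      intro s
      refine le_trans (le_of_eq ?_) (RL_bound (w := w) (u := u) (Q := Q) A f s)
      exact Finset.sum_congr rfl fun x _ => by rw [RLfun_apply]
    have h3 : Summable (fun x : G × I => ‖RLfun w u Q A f x‖ ^ 2) :=
      summable_of_sum_le (fun _ => by positivity) h2
    exact h3.tsum_le_of_sum_le h2
  exact (sq_le_sq₀ (norm_nonneg _) (by positivity)).1 h1

/-- the operator, as a linear map -/
noncomputable def RLlin (w : J → X) (u : I → X) (Q : EE G J →L[ℂ] EE G J)
    (A : EE G J →L[ℂ] EE G I) : EE G J →ₗ[ℂ] EE G I where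
  toFun := RLfun w u Q A
  map_add' f g := by
    ext x
    have e : (RLfun w u Q A f + RLfun w u Q A g) x = RLfun w u Q A f x + RLfun w u Q A g x := rfl
    rw [e, RLfun_apply, RLfun_apply, RLfun_apply, map_add, map_add]
    rfl
  map_smul' c f := by
    ext x
    have e : (RingHom.id ℂ c • RLfun w u Q A f) x = c • RLfun w u Q A f x := rfl
    rw [e, RLfun_apply, RLfun_apply, map_smul, map_smul]
    rfl

/-- the operator -/
noncomputable def RL (w : J → X) (u : I → X) (Q : EE G J →L[ℂ] EE G J)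
    (A : EE G J →L[ℂ] EE G I) : EE G J →L[ℂ] EE G I :=
  LinearMap.mkContinuous (RLlin w u Q A) ‖A‖ (norm_RLfun_le A)

theorem RL_apply (A : EE G J →L[ℂ] EE G I) (f : EE G J) (x : G × I) :
    RL w u Q A f x = A (proj (WL w Q (lev u x)) f) x := rfl

theorem RL_eqv (hX : OrdInv G X) (hQ : Eqv Q) (A : EE G J →L[ℂ] EE G I) (hA : Eqv A) :
    Eqv (RL w u Q A) := by
  intro k f
  ext ⟨x, i⟩
  rw [RL_apply, tr_apply, RL_apply]
  have e : lev u (x, i) = k • lev u (x * k, i) := by
    change x⁻¹ • u i = k • (x * k)⁻¹ • u i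
    rw [smul_smul, mul_inv_rev, mul_inv_cancel_left]
  rw [e, proj_WL_tr hX hQ, hA, tr_apply]

variable [Fintype I] [Fintype J]

/-- **The level inequality.** Let `G` act on the totally ordered set `X` by order-preserving maps.
Let `A`, `B` be bounded operators which commute with the right translations. The level of the
basis vector `(x, j)` is `x⁻¹ w_j`, that of `(x, i)` is `x⁻¹ u_i`. Suppose that `A` does not raise
the levels and that `B` is the part of `A` which preserves them. Then the dimension of the kernel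
of `A` is at most that of the kernel of `B`. -/
theorem level_le (hX : OrdInv G X) (w : J → X) (u : I → X) (A B : EE G J →L[ℂ] EE G I)
    (hA : Eqv A) (hB : Eqv B)
    (h1 : ∀ (j : J) (t : G) (i : I), A (dl (1, j)) (t, i) ≠ 0 → u i ≤ t • w j)
    (h2 : ∀ (j : J) (t : G) (i : I), u i = t • w j → B (dl (1, j)) (t, i) = A (dl (1, j)) (t, i))
    (h3 : ∀ (j : J) (t : G) (i : I), u i ≠ t • w j → B (dl (1, j)) (t, i) = 0) :
    vd (LinearMap.ker (A : EE G J →ₗ[ℂ] EE G I)) ≤ vd (LinearMap.ker (B : EE G J →ₗ[ℂ] EE G I)) := by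
  classical
  set K := LinearMap.ker (A : EE G J →ₗ[ℂ] EE G I) with hK
  have hKc : IsClosed (K : Set (EE G J)) := ContinuousLinearMap.isClosed_ker A
  have hKcs : CompleteSpace K := hKc.completeSpace_coe
  have hKinv : Pool.Agent.W649.ZL.Inv K := inv_ker A hA
  have hKoinv : Pool.Agent.W649.ZL.Inv Kᗮ := by
    intro k f hf
    rw [Submodule.mem_orthogonal] at hf ⊢
    intro v hv
    have : ⟪v, tr k f⟫_ℂ = ⟪tr k⁻¹ v, f⟫_ℂ := by rw [inner_tr_left, inv_inv]
    rw [this]
    exact hf _ (hKinv k⁻¹ v hv)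
  set Q : EE G J →L[ℂ] EE G J := Kᗮ.starProjection with hQdef
  have hQ : Eqv Q := proj_tr hKoinv
  have hAQ : ∀ f, A (Q f) = A f := by
    intro f
    have h : f - Q f ∈ Kᗮᗮ := Submodule.sub_starProjection_mem_orthogonal _
    rw [Submodule.orthogonal_orthogonal] at h
    have h' : A (f - Q f) = 0 := h
    rw [map_sub, sub_eq_zero] at h'
    exact h'.symm
  -- levels
  have hlev : ∀ (x : G) (j : J) (t : G) (i : I), A (dl (x, j)) (t, i) ≠ 0 →
      lev u (t, i) ≤ lev w (x, j) := by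
    intro x j t i hne
    rw [eqv_dl hA] at hne
    have h4 := hX t⁻¹ _ _ (h1 j _ i hne)
    rw [smul_smul] at h4
    have e : t⁻¹ * (t * x⁻¹) = x⁻¹ := by group
    rw [e] at h4
    exact h4
  have hsupp : ∀ (y : X) (x : G × I), y ≤ lev u x → ∀ v ∈ SS Q (lowP0 w y), A v x = 0 := by
    intro y x hyx v hv
    have hle : SS Q (lowP0 w y) ≤
        LinearMap.ker (((evL x).comp A : EE G J →L[ℂ] ℂ) : EE G J →ₗ[ℂ] ℂ) := by
      apply SS_le
      · exact ContinuousLinearMap.isClosed_ker _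
      · rintro ⟨g, j⟩ hg
        change evL x (A (Q (dl (g, j)))) = 0
        rw [evL_apply, hAQ]
        by_contra hne
        have h5 := hlev g j x.1 x.2 hne
        have h6 : lev w (g, j) < y := hg
        exact absurd (lt_of_le_of_lt h5 h6) (not_lt.2 hyx)
    have := hle hv
    change evL x (A v) = 0 at this
    rwa [evL_apply] at this
  set R := RL w u Q A with hR
  have hRe : Eqv R := RL_eqv hX hQ A hA
  -- the kernel
  have hker : K ≤ LinearMap.ker (R : EE G J →ₗ[ℂ] EE G I) := by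
    intro f hf
    change R f = 0
    ext x
    rw [hR, RL_apply]
    have h0 : proj (WL w Q (lev u x)) f = 0 := by
      apply proj_eq _ _ (Submodule.zero_mem _)
      intro v hv
      rw [sub_zero]
      have hwK : v ∈ Kᗮ := by
        have hle : SS Q (lowP w (lev u x)) ≤ Kᗮ :=
          SS_le _ _ _ (Submodule.isClosed_orthogonal _)
            (fun x _ => Submodule.starProjection_apply_mem _ _)
        exact hle hv.1
      rw [Submodule.mem_orthogonal] at hwK
      exact hwK f hf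
    rw [h0, map_zero]
  -- the range
  have hrange : ∀ x : G × J, B (dl x) ∈ LinearMap.range (R : EE G J →ₗ[ℂ] EE G I) := by
    rintro ⟨g, j⟩
    set y := lev w (g, j) with hy
    set uu := Q (dl (g, j)) with huu
    set vv := proj (SS Q (lowP0 w y)) uu with hvv
    have hu : uu ∈ SS Q (lowP w y) := SS_mem Q _ (le_refl y)
    have hv : vv ∈ SS Q (lowP0 w y) := proj_mem (SS_closed _ _) _
    have hw : uu - vv ∈ WL w Q y := by
      refine ⟨Submodule.sub_mem _ hu (SS_mono Q (fun x hx => le_of_lt hx) hv), ?_⟩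
      change uu - vv ∈ (SS Q (lowP0 w y))ᗮ
      rw [Submodule.mem_orthogonal]
      intro v hv
      rw [← inner_conj_symm, proj_inner uu v hv, map_zero]
    refine ⟨uu - vv, ?_⟩
    change R (uu - vv) = B (dl (g, j))
    ext ⟨t, i⟩
    rw [hR, RL_apply, eqv_dl hB]
    have hiff : u i = (t * g⁻¹) • w j ↔ lev u (t, i) = y := by
      rw [hy]
      change _ ↔ t⁻¹ • u i = g⁻¹ • w j
      rw [inv_smul_eq_iff, smul_smul]
    by_cases hc : lev u (t, i) = y
    · have e1 : proj (WL w Q (lev u (t, i))) (uu - vv) = uu - vv := by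
        rw [hc]
        apply proj_eq _ _ hw
        intro v _
        rw [sub_self, inner_zero_left]
      rw [e1, map_sub]
      have e2 : A vv (t, i) = 0 := hsupp y (t, i) hc.symm.le vv hv
      have e3 : (A uu - A vv) (t, i) = A uu (t, i) - A vv (t, i) := rfl
      rw [e3, e2, sub_zero, huu, hAQ, eqv_dl hA, h2 j _ i (hiff.2 hc)]
    · have e1 : proj (WL w Q (lev u (t, i))) (uu - vv) = 0 := by
        apply proj_eq _ _ (Submodule.zero_mem _)
        intro v hv'
        rw [sub_zero]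
        exact WL_orth (Ne.symm hc) hv' hw
      rw [e1, map_zero, h3 j _ i (fun h => hc (hiff.1 h))]
      rfl
  have hcl : LinearMap.range (B : EE G J →ₗ[ℂ] EE G I)
      ≤ (LinearMap.range (R : EE G J →ₗ[ℂ] EE G I)).topologicalClosure := by
    have htop : (LinearMap.range (R : EE G J →ₗ[ℂ] EE G I)).topologicalClosure.comap
        (B : EE G J →ₗ[ℂ] EE G I) = ⊤ := by
      apply eq_top_of_dl
      · exact (Submodule.isClosed_topologicalClosure _).preimage B.continuous
      · intro x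
        exact Submodule.le_topologicalClosure _ (hrange x)
    rintro y ⟨f, rfl⟩
    have : f ∈ (LinearMap.range (R : EE G J →ₗ[ℂ] EE G I)).topologicalClosure.comap
        (B : EE G J →ₗ[ℂ] EE G I) := by rw [htop]; trivial
    exact this
  have a1 := ker_add_range R hRe
  have a2 := ker_add_range B hB
  have a3 : vd (LinearMap.range (B : EE G J →ₗ[ℂ] EE G I))
      ≤ vd (LinearMap.range (R : EE G J →ₗ[ℂ] EE G I)) := by
    rw [← vd_closure (LinearMap.range (R : EE G J →ₗ[ℂ] EE G I))]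
    exact vd_mono hcl
  have a4 := vd_mono hker
  linarith

end

end Pool.Agent.N309.LO
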