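import Pool.Agent.N309.LO.Level
import Pool.Agent.W649.ZL.Mat

set_option autoImplicit false
set_option linter.unusedSectionVars false

open scoped InnerProductSpace InnerProduct ENNReal

/-! The level inequality for matrices over the complex group algebra. -/

namespace Pool.Agent.N309.LO

open Pool.Agent.W649.ZL

universe u v w z

section
variable {G : Type u} {K : Type v} {L : Type w} {ι : Type z} [Group G] [Fintype K] [Fintype L]
  [DecidableEq K] [DecidableEq L] [Fintype ι]

theorem lin_famR_dl (h : ι → G) (k : ι → K) (j : ι → L) (a : ι → ℂ) (k' : K) (t : G) (j' : L) :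
    lin (famR h k j) a (dl ((1 : G), k')) (t, j') = matM h k j a k' j' t⁻¹ := by
  classical
  rw [lin_famR_apply]
  unfold matM
  rw [Finsupp.finsetSum_apply]
  refine Finset.sum_congr rfl fun i _ => ?_
  by_cases h1 : k i = k' ∧ j i = j'
  · rw [if_pos h1, if_pos h1.2.symm, Finsupp.single_apply]
    by_cases h2 : h i = t⁻¹
    · rw [if_pos h2, h2, h1.1, inv_mul_cancel, dl_apply_self, mul_one]
    · rw [if_neg h2, dl_apply_ne, mul_zero]
      intro h3
      apply h2
      have h4 : h i * t = 1 := congrArg Prod.fst h3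
      exact eq_inv_of_mul_eq_one_left h4
  · rw [if_neg h1, Finsupp.zero_apply]
    by_cases h2 : j' = j i
    · rw [if_pos h2, dl_apply_ne, mul_zero]
      intro h3
      exact h1 ⟨congrArg Prod.snd h3, h2.symm⟩
    · rw [if_neg h2, mul_zero]

theorem kerDimM_eq_vd (T : Finset G) (A : K → L → (G →₀ ℂ)) (hT : ∀ k j, (A k j).support ⊆ T) :
    kerDimM A = vd (LinearMap.ker
      ((lin (famR (fun i : T × K × L => (i.1 : G)) (fun i => i.2.1) (fun i => i.2.2))
        (coefT T A) : EE G K →L[ℂ] EE G L) : EE G K →ₗ[ℂ] EE G L)) := by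
  have h := kerDimM_eq (fun i : T × K × L => (i.1 : G)) (fun i => i.2.1) (fun i => i.2.2)
    (coefT T A)
  rw [matM_coefT T A hT] at h
  exact h

/-- **The level inequality for matrices.** -/
theorem mat_le {X : Type*} [MulAction G X] [LinearOrder X] (hX : OrdInv G X) (r : K → X) (c : L → X)
    (A B : K → L → (G →₀ ℂ))
    (h1 : ∀ k j, ∀ h ∈ (A k j).support, h • c j ≤ r k)
    (h2 : ∀ k j h, h • c j = r k → B k j h = A k j h)
    (h3 : ∀ k j h, h • c j ≠ r k → B k j h = 0) : kerDimM A ≤ kerDimM B := by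
  classical
  let T : Finset G := Finset.univ.biUnion (fun k : K => Finset.univ.biUnion (fun j : L =>
    (A k j).support ∪ (B k j).support))
  have hTA : ∀ k j, (A k j).support ⊆ T := by
    intro k j x hx
    refine Finset.mem_biUnion.2 ⟨k, Finset.mem_univ _, Finset.mem_biUnion.2 ⟨j, Finset.mem_univ _, ?_⟩⟩
    exact Finset.mem_union_left _ hx
  have hTB : ∀ k j, (B k j).support ⊆ T := by
    intro k j x hx
    refine Finset.mem_biUnion.2 ⟨k, Finset.mem_univ _, Finset.mem_biUnion.2 ⟨j, Finset.mem_univ _, ?_⟩⟩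
    exact Finset.mem_union_right _ hx
  rw [kerDimM_eq_vd T A hTA, kerDimM_eq_vd T B hTB]
  have key : ∀ t : G, ∀ k j, c j = t • r k ↔ t⁻¹ • c j = r k := by
    intro t k j
    rw [inv_smul_eq_iff]
  apply level_le hX r c _ _ (lin_eqv _ (famR_eqv _ _ _) _) (lin_eqv _ (famR_eqv _ _ _) _)
  · intro k t j hne
    rw [lin_famR_dl, matM_coefT T A hTA] at hne
    have h4 := h1 k j _ (Finsupp.mem_support_iff.2 hne)
    have h5 := hX t _ _ h4
    rwa [smul_inv_smul] at h5
  · intro k t j he
    rw [lin_famR_dl, lin_famR_dl, matM_coefT T A hTA, matM_coefT T B hTB]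
    exact h2 k j _ ((key t k j).1 he)
  · intro k t j hne
    rw [lin_famR_dl, matM_coefT T B hTB]
    exact h3 k j _ (fun h => hne ((key t k j).2 h))

end

end Pool.Agent.N309.LO
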