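import Pool.Agent.N309.LO.Rank

set_option autoImplicit false
set_option linter.unusedSectionVars false

open scoped InnerProductSpace InnerProduct ENNReal

/-! Matrices with a regular entry. -/

namespace Pool.Agent.N309.LO

open Pool.Agent.W649.ZL

universe u v w z

section
variable {G : Type u} [Group G]

/-- right multiplication by `α` is injective on `ℓ²(G)` -/
def Reg (α : G →₀ ℂ) : Prop :=
  ∀ x : G → ℂ, Memℓp x 2 → (∀ g, ∑ h ∈ α.support, x (g * h⁻¹) * α h = 0) → x = 0

/-- inversion -/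
noncomputable def iv (α : G →₀ ℂ) : G →₀ ℂ := α.mapDomain (fun x => x⁻¹)

theorem iv_iv (α : G →₀ ℂ) : iv (iv α) = α := by
  unfold iv
  rw [← Finsupp.mapDomain_comp]
  have e : ((fun x : G => x⁻¹) ∘ fun x : G => x⁻¹) = id := by
    funext x
    exact inv_inv x
  rw [e, Finsupp.mapDomain_id]

theorem iv_ne {α : G →₀ ℂ} (h : α ≠ 0) : iv α ≠ 0 := by
  intro h0
  apply h
  rw [← iv_iv α, h0]
  exact Finsupp.mapDomain_zero

theorem iv_sum (α : G →₀ ℂ) (f : G → ℂ) (g : G) :
    ∑ k ∈ (iv α).support, iv α k * f (k⁻¹ * g) = ∑ h ∈ α.support, f (h * g) * α h := by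
  have h1 : ∑ k ∈ (iv α).support, iv α k * f (k⁻¹ * g)
      = (iv α).sum (fun k a => a * f (k⁻¹ * g)) := rfl
  rw [h1]
  unfold iv
  rw [Finsupp.sum_mapDomain_index_inj inv_injective]
  rw [Finsupp.sum]
  refine Finset.sum_congr rfl fun k _ => ?_
  rw [inv_inv, mul_comm]

theorem memlp_comp_inv (x : G → ℂ) (hx : Memℓp x 2) : Memℓp (fun g => x g⁻¹) 2 := by
  rw [memlp_two_iff] at hx ⊢
  exact (Equiv.summable_iff (Equiv.inv G)).2 hx

theorem reg_iff (α : G →₀ ℂ) : Reg α ↔ Function.Injective (cop (iv α)) := by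
  rw [← regular_iff]
  constructor
  · intro h f hf hne
    by_contra hcon
    push Not at hcon
    apply hne
    have h1 := h (fun g => f g⁻¹) (memlp_comp_inv f hf) (by
      intro g
      have h2 := hcon g⁻¹
      rw [iv_sum] at h2
      rw [← h2]
      refine Finset.sum_congr rfl fun k _ => ?_
      rw [mul_inv_rev, inv_inv])
    funext g
    have h2 := congrFun h1 g⁻¹
    simpa using h2
  · intro h x hx hk
    by_contra hne
    obtain ⟨g, hg⟩ := h (fun g => x g⁻¹) (memlp_comp_inv x hx) (by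
      intro h0
      apply hne
      funext g
      have h2 := congrFun h0 g⁻¹
      simpa using h2)
    apply hg
    refine (iv_sum α (fun g => x g⁻¹) g).trans ?_
    rw [← hk g⁻¹]
    refine Finset.sum_congr rfl fun k _ => ?_
    rw [mul_inv_rev]

theorem reg_order (H : Subgroup G) [LinearOrder (G ⧸ H)]
    (hinv : ∀ (g : G) (a b : G ⧸ H), a ≤ b → g • a ≤ g • b)
    (hH : ∀ β : H →₀ ℂ, β ≠ 0 → Reg β) (α : G →₀ ℂ) (hα : α ≠ 0) : Reg α := by
  rw [reg_iff]
  refine order_injective H hinv (fun β hβ => ?_) (iv α) (iv_ne hα)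
  have h := (reg_iff (iv β)).1 (hH (iv β) (iv_ne hβ))
  rwa [iv_iv] at h

theorem reg_left [LinearOrder G] (hinv : ∀ g a b : G, a ≤ b → g * a ≤ g * b) (α : G →₀ ℂ)
    (hα : α ≠ 0) : Reg α := by
  rw [reg_iff]
  exact leftOrdered_injective hinv (iv α) (iv_ne hα)

end

section
variable {G : Type u} {K : Type v} {L : Type w} [Group G] [Fintype K] [Fintype L]
  [DecidableEq K] [DecidableEq L]

theorem kerDimM_le_of_entry (A : K → L → (G →₀ ℂ)) (k : K) (j : L) (h : Reg (A k j)) :
    kerDimM A ≤ (Fintype.card K : ℝ) - 1 := by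
  classical
  have h1 := kerDimM_le_of_rows A {k} (by
    apply kerDimM_eq_zero_of
    intro x hx
    have hk : k ∈ ({k} : Finset K) := Finset.mem_singleton_self k
    have hmem : Memℓp (fun g : G => x ((⟨k, hk⟩ : ({k} : Finset K)), g)) 2 := by
      rw [memlp_two_iff]
      have h1 := (memlp_two_iff _).1 x.2
      exact h1.comp_injective (i := fun g : G => ((⟨k, hk⟩ : ({k} : Finset K)), g)) (by
        intro a b hh
        exact congrArg Prod.snd hh)
    have h2 := h (fun g : G => x ((⟨k, hk⟩ : ({k} : Finset K)), g)) hmem (by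
      intro g
      have h3 := hx j g
      rw [Finset.sum_eq_single (⟨k, hk⟩ : ({k} : Finset K))] at h3
      · exact h3
      · intro b _ hb
        exact absurd (Subtype.ext (Finset.mem_singleton.1 b.2)) hb
      · intro hb
        exact absurd (Finset.mem_univ _) hb)
    ext ⟨⟨k', hk'⟩, g⟩
    obtain rfl := Finset.mem_singleton.1 hk'
    exact congrFun h2 g)
  rwa [Finset.card_singleton, Nat.cast_one] at h1

end

end Pool.Agent.N309.LO
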