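import Pool.Agent.N309.LO.Alg

set_option autoImplicit false
set_option linter.unusedSectionVars false

open scoped InnerProductSpace InnerProduct ENNReal

/-! Elements of the group von Neumann algebra of a left ordered group. -/

namespace Pool.Agent.N309.LO

open Pool.Agent.W649.ZL

universe u

section
variable {G : Type u} [Group G]

theorem toU_add (f g : lp (fun _ : G => ℂ) 2) : toU (f + g) = toU f + toU g := by
  ext x; rfl

theorem toU_smul (c : ℂ) (f : lp (fun _ : G => ℂ) 2) : toU (c • f) = c • toU f := by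
  ext x; rfl

theorem toU_injective : Function.Injective (toU : lp (fun _ : G => ℂ) 2 → EE G Unit) :=
  isometry_toU.injective

/-- the isometry `ℓ²(G) ≃ ℓ²(G × Unit)` -/
noncomputable def UU : lp (fun _ : G => ℂ) 2 ≃ₗᵢ[ℂ] EE G Unit :=
  LinearIsometryEquiv.ofSurjective
    { toFun := toU
      map_add' := toU_add
      map_smul' := toU_smul
      norm_map' := norm_toU } (fun F => toU_surj F)

theorem UU_apply (f : lp (fun _ : G => ℂ) 2) : UU f = toU f := rfl

theorem UU_symm_apply (F : EE G Unit) (x : G) : UU.symm F x = F (x, ()) := by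
  obtain ⟨f, rfl⟩ := toU_surj F
  have h : UU.symm (toU f) = f := UU.symm_apply_apply f
  rw [h]
  rfl

theorem op_injective [LinearOrder G] (hinv : ∀ g a b : G, a ≤ b → g * a ≤ g * b)
    (T : lp (fun _ : G => ℂ) 2 →L[ℂ] lp (fun _ : G => ℂ) 2)
    (hT : ∀ (k : G) (f f' : lp (fun _ : G => ℂ) 2), (∀ x, f' x = f (x * k)) →
      ∀ x, T f' x = T f (x * k))
    (δ : lp (fun _ : G => ℂ) 2) (hδ : δ 1 = 1) (hδ' : ∀ x, x ≠ 1 → δ x = 0)
    (t : G) (ht : T δ t ≠ 0) (hmin : ∀ x, x < t → T δ x = 0) : Function.Injective T := by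
  classical
  let A : EE G Unit →L[ℂ] EE G Unit :=
    (Ltr t⁻¹).comp ((UU (G := G)).toContinuousLinearEquiv.toContinuousLinearMap.comp
      (T.comp (UU (G := G)).symm.toContinuousLinearEquiv.toContinuousLinearMap))
  have hA : ∀ F x, A F (x, ()) = T (UU.symm F) (t * x) := by
    intro F x
    have e1 : A F (x, ()) = (UU (T (UU.symm F))) (t⁻¹⁻¹ * x, ()) := rfl
    rw [e1, inv_inv, UU_apply, toU_apply]
  have hAe : Eqv A := by
    intro k F
    ext ⟨x, ⟨⟩⟩
    rw [tr_apply, hA, hA]
    rw [hT k (UU.symm F) (UU.symm (tr k F)) (by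
      intro x
      rw [UU_symm_apply, UU_symm_apply, tr_apply])]
    rw [mul_assoc]
  have hsd : (UU (G := G)).symm (dl ((1 : G), ())) = δ := by
    ext x
    rw [UU_symm_apply]
    by_cases hx : x = 1
    · rw [hx, dl_apply_self, hδ]
    · rw [hδ' x hx, dl_apply_ne]
      intro h; exact hx (congrArg Prod.fst h)
  have hP : IsCone {g : G | 1 ≤ g} := by
    constructor
    · intro x hx y hy
      have h1 := hinv x _ _ hy
      rw [mul_one] at h1
      exact le_trans hx h1
    · intro x
      rcases le_total 1 x with h | h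
      · exact Or.inl h
      · right
        have h1 := hinv x⁻¹ _ _ h
        rwa [mul_one, inv_mul_cancel] at h1
  let B : EE G Unit →L[ℂ] EE G Unit := (T δ t) • Ltr (1 : G)
  have hBap : ∀ F x, B F (x, ()) = T δ t * F (x, ()) := by
    intro F x
    have e1 : B F (x, ()) = T δ t * (Ltr (1 : G) F) (x, ()) := rfl
    rw [e1, Ltr_apply, inv_one, one_mul]
  have hBe : Eqv B := by
    intro k F
    ext ⟨x, ⟨⟩⟩
    rw [tr_apply, hBap, hBap, tr_apply]
  have hB : Function.Injective B := by
    intro f g hfg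
    apply Ltr_injective (1 : G)
    exact smul_right_injective _ ht hfg
  have h := cone_le hP A B hAe hBe (by
      rintro ⟨⟩ g ⟨⟩ hg
      rw [hA, hsd]
      apply hmin
      have hg' : g < 1 := not_le.1 hg
      have h1 := hinv t _ _ hg'.le
      rw [mul_one] at h1
      refine lt_of_le_of_ne h1 ?_
      intro h2
      apply hg'.ne
      have h3 : t * g = t * 1 := by rw [h2, mul_one]
      exact mul_left_cancel h3)
    (by
      rintro ⟨⟩ g ⟨⟩ h1 h2
      have h3 := hinv g _ _ h2
      rw [mul_one, mul_inv_cancel] at h3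
      have h4 : g = 1 := le_antisymm h3 h1
      subst h4
      rw [hA, hsd, hBap, dl_apply_self, mul_one, mul_one])
    (by
      rintro ⟨⟩ g ⟨⟩ hg
      rw [hBap, dl_apply_ne, mul_zero]
      intro h
      apply hg
      have h1 : g = 1 := congrArg Prod.fst h
      subst h1
      exact ⟨le_refl _, by rw [inv_one]; exact le_refl _⟩)
  have h0 : vd (LinearMap.ker (A : EE G Unit →ₗ[ℂ] EE G Unit)) ≤ 0 :=
    h.trans (le_of_eq (vd_ker_of_injective _ hB))
  have hinj := injective_of_vd_eq_zero _ hAe h0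
  intro f g hfg
  have e : ∀ f, A (UU f) = Ltr t⁻¹ (UU (T f)) := by
    intro f
    have e1 : A (UU f) = Ltr t⁻¹ (UU (T (UU.symm (UU f)))) := rfl
    rw [e1, LinearIsometryEquiv.symm_apply_apply]
  exact UU.injective (hinj (by rw [e, e, hfg]))

end

end Pool.Agent.N309.LO
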