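import Pool.Agent.N309.LO.Rows
import Pool.Agent.N309.LO.Alg

set_option autoImplicit false
set_option linter.unusedSectionVars false

open scoped InnerProductSpace InnerProduct ENNReal

/-! Leading matrices over left-ordered groups. -/

namespace Pool.Agent.N309.LO

open Pool.Agent.W649.ZL

universe u v w z

section
variable {G : Type u} {K : Type v} {L : Type w} [Group G] [Fintype K] [Fintype L]
  [DecidableEq K] [DecidableEq L]

theorem kerDimM_nonneg (A : K → L → (G →₀ ℂ)) : 0 ≤ kerDimM A := by
  classical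
  let T : Finset G := Finset.univ.biUnion (fun k : K => Finset.univ.biUnion (fun j : L =>
    (A k j).support))
  have hTA : ∀ k j, (A k j).support ⊆ T := by
    intro k j x hx
    exact Finset.mem_biUnion.2 ⟨k, Finset.mem_univ _, Finset.mem_biUnion.2 ⟨j, Finset.mem_univ _, hx⟩⟩
  rw [kerDimM_eq_vd T A hTA]
  exact vd_nonneg _

theorem kerDimM_single (r : K → G) (c : L → G) (C : K → L → ℂ) (hC : LinearIndependent ℂ C) :
    kerDimM (fun k j => Finsupp.single (r k * (c j)⁻¹) (C k j)) = 0 := by
  classical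
  apply kerDimM_eq_zero_of
  intro x hx
  have key : ∀ (g : G) (j : L), ∑ k : K, x (k, g * (r k)⁻¹) * C k j = 0 := by
    intro g j
    have h1 := hx j (g * (c j)⁻¹)
    rw [← h1]
    refine Finset.sum_congr rfl fun k _ => ?_
    have h2 : ∑ h ∈ (Finsupp.single (r k * (c j)⁻¹) (C k j)).support,
        x (k, g * (c j)⁻¹ * h⁻¹) * (Finsupp.single (r k * (c j)⁻¹) (C k j)) h
        = (Finsupp.single (r k * (c j)⁻¹) (C k j)).sum
          (fun h a => x (k, g * (c j)⁻¹ * h⁻¹) * a) := rfl
    rw [h2, Finsupp.sum_single_index (by rw [mul_zero])]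
    congr 3
    rw [mul_inv_rev, inv_inv]
    group
  have h0 : ∀ (g : G) (k : K), x (k, g * (r k)⁻¹) = 0 := by
    intro g
    apply (Fintype.linearIndependent_iff.1 hC)
    ext j
    rw [Finset.sum_apply]
    have h3 := key g j
    simpa [smul_eq_mul] using h3
  ext ⟨k, g⟩
  have h4 := h0 (g * r k) k
  rw [mul_inv_cancel_right] at h4
  exact h4

theorem rank_le [LinearOrder G] (hG : ∀ g a b : G, a ≤ b → g * a ≤ g * b)
    (A : K → L → (G →₀ ℂ)) (r : K → G) (c : L → G)
    (h1 : ∀ k j, ∀ h ∈ (A k j).support, h * c j ≤ r k) (S : Finset K)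
    (hS : LinearIndependent ℂ (fun (k : S) (j : L) => A k j (r k * (c j)⁻¹))) :
    kerDimM A ≤ (Fintype.card K : ℝ) - S.card := by
  classical
  apply kerDimM_le_of_rows
  apply le_antisymm _ (kerDimM_nonneg _)
  refine (mat_le (X := G) (fun g a b h => hG g a b h) (fun k : S => r k) c
    (fun (k : S) (j : L) => A k j)
    (fun (k : S) (j : L) => Finsupp.single (r k * (c j)⁻¹) (A k j (r k * (c j)⁻¹))) ?_ ?_ ?_).trans ?_
  · intro k j h hh
    exact h1 k j h hh
  · intro k j h hh
    have e : h = r k * (c j)⁻¹ := by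
      rw [← hh, smul_eq_mul, mul_inv_cancel_right]
    change Finsupp.single _ _ h = _
    rw [e, Finsupp.single_eq_same]
  · intro k j h hh
    change Finsupp.single _ _ h = _
    rw [Finsupp.single_apply, if_neg]
    intro e
    apply hh
    rw [← e, smul_eq_mul, inv_mul_cancel_right]
  · exact (kerDimM_single _ _ _ hS).le

end

end Pool.Agent.N309.LO
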