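import Pool.Agent.N309.LO.Mat

set_option autoImplicit false
set_option linter.unusedSectionVars false

open scoped InnerProductSpace InnerProduct ENNReal

/-! Rows with trivial kernel bound the kernel dimension. -/

namespace Pool.Agent.N309.LO

open Pool.Agent.W649.ZL

universe u v w z

section
variable {G : Type u} {K : Type v} {L : Type w} [Group G] [Fintype K] [Fintype L]
  [DecidableEq K] [DecidableEq L]

/-- the functions which vanish on the coordinates in `S` -/
def offS (G : Type u) (S : Finset K) : Submodule ℂ (EE G K) where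
  carrier := {F | ∀ x : G × K, x.2 ∈ S → F x = 0}
  zero_mem' := fun x _ => rfl
  add_mem' := by
    intro a b ha hb x hx
    have e : (a + b) x = a x + b x := rfl
    rw [e, ha x hx, hb x hx, add_zero]
  smul_mem' := by
    intro c a ha x hx
    have e : (c • a) x = c * a x := rfl
    rw [e, ha x hx, mul_zero]

theorem offS_closed (S : Finset K) : IsClosed (offS G S : Set (EE G K)) := by
  have : (offS G S : Set (EE G K)) = ⋂ (x : G × K) (_ : x.2 ∈ S), {F | evL x F = 0} := by
    ext F
    simp only [Set.mem_iInter, Set.mem_ofPred_eq, evL_apply]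
    rfl
  rw [this]
  apply isClosed_iInter
  intro x
  apply isClosed_iInter
  intro _
  exact isClosed_eq (evL x).continuous continuous_const

theorem vd_offS_le (S : Finset K) : vd (offS G S) ≤ (Fintype.card K : ℝ) - S.card := by
  classical
  have hcs : CompleteSpace (offS G S) := (offS_closed (G := G) S).completeSpace_coe
  rw [vd_eq (offS G S) (offS G S) (topcl_eq (offS_closed S))]
  have h1 : ∀ k : K, ‖(offS G S).starProjection (dl ((1 : G), k))‖ ^ 2 ≤ if k ∈ S then 0 else 1 := by
    intro k
    by_cases hk : k ∈ S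
    · rw [if_pos hk]
      have h0 : (offS G S).starProjection (dl ((1 : G), k)) = 0 := by
        rw [Submodule.starProjection_apply_eq_zero_iff]
        rw [Submodule.mem_orthogonal]
        intro F hF
        rw [inner_dl_right, hF _ hk, map_zero]
      rw [h0, norm_zero]
      norm_num
    · rw [if_neg hk]
      have h2 := Submodule.norm_starProjection_apply_le (offS G S) (dl ((1 : G), k))
      rw [norm_dl] at h2
      have h3 : 0 ≤ ‖(offS G S).starProjection (dl ((1 : G), k))‖ := norm_nonneg _
      nlinarith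
  refine (Finset.sum_le_sum fun k _ => h1 k).trans ?_
  have h2 : ∑ k : K, (if k ∈ S then (0 : ℝ) else 1) = (Fintype.card K : ℝ) - S.card := by
    have h3 : ∀ k : K, (if k ∈ S then (0 : ℝ) else 1) = 1 - (if k ∈ S then (1 : ℝ) else 0) := by
      intro k
      split_ifs <;> norm_num
    rw [Finset.sum_congr rfl fun k _ => h3 k, Finset.sum_sub_distrib]
    simp
  exact h2.le

/-- the projection to the coordinates outside `S` -/
noncomputable def prS (G : Type u) [Group G] (S : Finset K) : EE G K →L[ℂ] EE G K :=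
  ∑ k ∈ Finset.univ.filter (fun k => k ∉ S), elem (1 : G) k k

theorem prS_apply (S : Finset K) (F : EE G K) (x : G × K) :
    prS G S F x = if x.2 ∈ S then 0 else F x := by
  classical
  obtain ⟨g, k⟩ := x
  unfold prS
  rw [sum_apply, sum_apply_EE]
  have h1 : ∀ k' : K, elem (1 : G) k' k' F (g, k) = if k' = k then F (g, k) else 0 := by
    intro k'
    rw [elem_apply]
    by_cases h : k' = k
    · subst h
      rw [if_pos rfl, if_pos rfl, inv_one, one_mul]
    · rw [if_neg h, if_neg (fun h' => h h'.symm)]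
  rw [Finset.sum_congr rfl fun k' _ => h1 k', Finset.sum_ite_eq']
  simp only [Finset.mem_filter, Finset.mem_univ, true_and]
  by_cases h : k ∈ S
  · rw [if_neg (fun h' => h' h), if_pos h]
  · rw [if_pos h, if_neg h]

theorem prS_eqv (S : Finset K) : Eqv (prS G S) := by
  intro k F
  ext ⟨g, i⟩
  rw [prS_apply, tr_apply, tr_apply, prS_apply]

/-- If no nonzero vector of the kernel is supported on the coordinates in `S`, the dimension of the
kernel is at most the number of the other coordinates. -/
theorem vd_ker_le (A : EE G K →L[ℂ] EE G L) (hA : Eqv A) (S : Finset K)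
    (h : ∀ F, A F = 0 → (∀ x : G × K, x.2 ∉ S → F x = 0) → F = 0) :
    vd (LinearMap.ker (A : EE G K →ₗ[ℂ] EE G L)) ≤ (Fintype.card K : ℝ) - S.card := by
  classical
  set U := LinearMap.ker (A : EE G K →ₗ[ℂ] EE G L) with hU
  have h1 := rank_nullity (prS G S) (prS_eqv S) (U := U) (inv_ker A hA)
    (ContinuousLinearMap.isClosed_ker A)
  have h2 : U ⊓ LinearMap.ker (prS G S : EE G K →ₗ[ℂ] EE G K) = ⊥ := by
    rw [eq_bot_iff]
    rintro F ⟨hF1, hF2⟩
    rw [Submodule.mem_bot]
    apply h F hF1
    intro x hx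
    have h3 : prS G S F = 0 := hF2
    have h4 : prS G S F x = 0 := by rw [h3]; rfl
    rwa [prS_apply, if_neg hx] at h4
  rw [h2, vd_bot, zero_add] at h1
  rw [h1]
  refine (vd_mono ?_).trans (vd_offS_le (G := G) S)
  rintro _ ⟨F, _, rfl⟩
  intro x hx
  change prS G S F x = 0
  rw [prS_apply, if_pos hx]

end

section
variable {G : Type u} {K : Type v} {L : Type w} [Group G] [Fintype K] [Fintype L]
  [DecidableEq K] [DecidableEq L]

theorem lin_op_apply (T : Finset G) (A : K → L → (G →₀ ℂ)) (hT : ∀ k j, (A k j).support ⊆ T)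
    (F : EE G K) (g : G) (j : L) :
    (lin (famR (fun i : T × K × L => (i.1 : G)) (fun i => i.2.1) (fun i => i.2.2))
        (coefT T A)) F (g, j) = ∑ k : K, (A k j).sum (fun y a => a * F (y * g, k)) := by
  classical
  obtain ⟨x, rfl⟩ := flp_surj F
  rw [lin_famR_apply]
  have h := sum_matM (fun i : T × K × L => (i.1 : G)) (fun i => i.2.1) (fun i => i.2.2)
    (coefT T A) x g⁻¹ j
  rw [matM_coefT T A hT] at h
  have e1 : ∀ i : T × K × L, coefT T A i * (if j = i.2.2 then flp x ((i.1 : G) * g, i.2.1) else 0)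
      = coefT T A i * (if j = i.2.2 then x (i.2.1, g⁻¹ * (i.1 : G)⁻¹) else 0) := by
    intro i
    rw [flp_apply, mul_inv_rev]
  rw [Finset.sum_congr rfl fun i _ => e1 i, ← h]
  refine Finset.sum_congr rfl fun k _ => ?_
  rw [Finsupp.sum]
  refine Finset.sum_congr rfl fun y _ => ?_
  rw [flp_apply, mul_inv_rev, mul_comm]

/-- restriction to the rows in `S` -/
theorem kerDimM_le_of_rows (A : K → L → (G →₀ ℂ)) (S : Finset K)
    (h : kerDimM (fun (k : S) (j : L) => A k j) = 0) :
    kerDimM A ≤ (Fintype.card K : ℝ) - S.card := by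
  classical
  let T : Finset G := Finset.univ.biUnion (fun k : K => Finset.univ.biUnion (fun j : L =>
    (A k j).support))
  have hTA : ∀ k j, (A k j).support ⊆ T := by
    intro k j x hx
    exact Finset.mem_biUnion.2 ⟨k, Finset.mem_univ _, Finset.mem_biUnion.2 ⟨j, Finset.mem_univ _, hx⟩⟩
  rw [kerDimM_eq_vd T A hTA]
  rw [kerDimM_eq_vd T (fun (k : S) (j : L) => A k j) (fun k j => hTA k j)] at h
  set A' := lin (famR (fun i : T × S × L => (i.1 : G)) (fun i => i.2.1) (fun i => i.2.2))
        (coefT T (fun (k : S) (j : L) => A k j)) with hA'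
  have hinj : Function.Injective A' :=
    injective_of_vd_eq_zero A' (lin_eqv _ (famR_eqv _ _ _) _) h.le
  apply vd_ker_le _ (lin_eqv _ (famR_eqv _ _ _) _) S
  intro F hF hS
  -- restrict `F` to `S`
  have hmem : Memℓp (fun x : G × S => F (x.1, (x.2 : K))) 2 := by
    rw [memlp_two_iff]
    have h1 := (memlp_two_iff _).1 F.2
    exact h1.comp_injective (i := fun x : G × S => (x.1, (x.2 : K))) (by
      rintro ⟨a, b⟩ ⟨c, d⟩ hh
      simp only [Prod.mk.injEq] at hh
      exact Prod.ext hh.1 (Subtype.ext hh.2))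
  let F' : EE G S := ⟨fun x => F (x.1, (x.2 : K)), hmem⟩
  have h0 : A' F' = 0 := by
    ext ⟨g, j⟩
    have e := lin_op_apply T (fun (k : S) (j : L) => A k j) (fun k j => hTA k j) F' g j
    refine Eq.trans e ?_
    have h2 := lin_op_apply T A hTA F g j
    rw [hF] at h2
    have h3 : (0 : ℂ) = ∑ k : K, (A k j).sum (fun y a => a * F (y * g, k)) := h2
    change _ = (0 : ℂ)
    rw [h3]
    have h4 : ∀ k : K, k ∉ S → (A k j).sum (fun y a => a * F (y * g, k)) = 0 := by
      intro k hk
      apply Finset.sum_eq_zero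
      intro y _
      change A k j y * F (y * g, k) = 0
      rw [hS (y * g, k) hk, mul_zero]
    rw [← Finset.sum_subset (Finset.subset_univ S) (fun k _ hk => h4 k hk)]
    exact Finset.sum_coe_sort S (fun k => (A k j).sum (fun y a => a * F (y * g, k)))
  have h5 : F' = 0 := hinj (by rw [h0, map_zero])
  ext ⟨g, k⟩
  by_cases hk : k ∈ S
  · have h6 := congrArg (fun H : EE G S => H (g, ⟨k, hk⟩)) h5
    exact h6
  · exact hS (g, k) hk

/-- a matrix with trivial kernel -/
theorem kerDimM_eq_zero_of (A : K → L → (G →₀ ℂ))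
    (h : ∀ x : lp (fun _ : K × G => ℂ) 2, x ∈ kernM A → x = 0) : kerDimM A = 0 := by
  classical
  let T : Finset G := Finset.univ.biUnion (fun k : K => Finset.univ.biUnion (fun j : L =>
    (A k j).support))
  have hTA : ∀ k j, (A k j).support ⊆ T := by
    intro k j x hx
    exact Finset.mem_biUnion.2 ⟨k, Finset.mem_univ _, Finset.mem_biUnion.2 ⟨j, Finset.mem_univ _, hx⟩⟩
  rw [kerDimM_eq_vd T A hTA]
  apply vd_ker_of_injective
  rw [injective_iff_map_eq_zero]
  intro F hF
  obtain ⟨x, rfl⟩ := flp_surj F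
  have hx : x ∈ kernM A := by
    intro j g
    have h2 := lin_op_apply T A hTA (flp x) g⁻¹ j
    rw [hF] at h2
    have h3 : (0 : ℂ) = ∑ k : K, (A k j).sum (fun y a => a * flp x (y * g⁻¹, k)) := h2
    rw [h3]
    refine Finset.sum_congr rfl fun k _ => ?_
    rw [Finsupp.sum]
    refine Finset.sum_congr rfl fun y _ => ?_
    rw [flp_apply, mul_inv_rev, inv_inv, mul_comm]
  rw [h x hx]
  ext y
  rfl

theorem kern_of_kerDimM_eq_zero (A : K → L → (G →₀ ℂ)) (h : kerDimM A = 0)
    (x : lp (fun _ : K × G => ℂ) 2) (hx : x ∈ kernM A) : x = 0 := by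
  classical
  let T : Finset G := Finset.univ.biUnion (fun k : K => Finset.univ.biUnion (fun j : L =>
    (A k j).support))
  have hTA : ∀ k j, (A k j).support ⊆ T := by
    intro k j x hx
    exact Finset.mem_biUnion.2 ⟨k, Finset.mem_univ _, Finset.mem_biUnion.2 ⟨j, Finset.mem_univ _, hx⟩⟩
  rw [kerDimM_eq_vd T A hTA] at h
  have hinj := injective_of_vd_eq_zero _ (lin_eqv _ (famR_eqv _ _ _) _) h.le
  have h0 : (lin (famR (fun i : T × K × L => (i.1 : G)) (fun i => i.2.1) (fun i => i.2.2))
        (coefT T A)) (flp x) = 0 := by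
    ext ⟨g, j⟩
    rw [lin_op_apply T A hTA]
    change _ = (0 : ℂ)
    rw [← hx j g⁻¹]
    refine Finset.sum_congr rfl fun k _ => ?_
    rw [Finsupp.sum]
    refine Finset.sum_congr rfl fun y _ => ?_
    rw [flp_apply, mul_inv_rev, mul_comm]
  have h1 : flp x = 0 := hinj (by rw [h0, map_zero])
  ext ⟨k, g⟩
  have h2 := congrArg (fun H : EE G K => H (g⁻¹, k)) h1
  have h3 : x (k, g⁻¹⁻¹) = 0 := h2
  rwa [inv_inv] at h3

/-- the lower bound -/
theorem kerDimM_ge (A : K → L → (G →₀ ℂ)) :
    (Fintype.card K : ℝ) - Fintype.card L ≤ kerDimM A := by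
  classical
  let T : Finset G := Finset.univ.biUnion (fun k : K => Finset.univ.biUnion (fun j : L =>
    (A k j).support))
  have hTA : ∀ k j, (A k j).support ⊆ T := by
    intro k j x hx
    exact Finset.mem_biUnion.2 ⟨k, Finset.mem_univ _, Finset.mem_biUnion.2 ⟨j, Finset.mem_univ _, hx⟩⟩
  rw [kerDimM_eq_vd T A hTA]
  have h1 := ker_add_range (lin (famR (fun i : T × K × L => (i.1 : G)) (fun i => i.2.1)
    (fun i => i.2.2)) (coefT T A)) (lin_eqv _ (famR_eqv _ _ _) _)
  have h2 : vd (LinearMap.range ((lin (famR (fun i : T × K × L => (i.1 : G)) (fun i => i.2.1)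
    (fun i => i.2.2)) (coefT T A) : EE G K →L[ℂ] EE G L) : EE G K →ₗ[ℂ] EE G L))
      ≤ Fintype.card L := by
    rw [← vd_top (G := G) (J := L)]
    exact vd_mono le_top
  linarith

end

end Pool.Agent.N309.LO
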